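import Pool.Agent.Lib_MP_4c49f5_co.Del

set_option autoImplicit false
set_option linter.unusedSectionVars false
set_option linter.unusedVariables false
set_option maxHeartbeats 4000000

namespace Pool.Agent.Lib4c49

open Finset

variable {V E : Type*} [Fintype V] [DecidableEq V] [DecidableEq E] {a b : E → V}

lemma card_split {R W : Finset V} {A : Finset E} (hRW : Disjoint R W)
    (hends : ∀ e ∈ A, a e ∈ R ∪ W ∧ b e ∈ R ∪ W) :
    (W \ reach a b R A).card + (reach a b R A \ R).card = W.card := by
  have h1 : reach a b R A ⊆ R ∪ W := by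
    apply reach_min
    · exact subset_union_left
    · intro e he
      have := hends e he
      simp only [this.1, this.2]
  have h2 : reach a b R A \ R = W ∩ reach a b R A := by
    ext v
    rw [mem_sdiff, mem_inter]
    constructor
    · rintro ⟨h3, h4⟩
      exact ⟨(mem_union.1 (h1 h3)).resolve_left h4, h3⟩
    · rintro ⟨h3, h4⟩
      exact ⟨h4, fun h5 => Finset.disjoint_left.1 hRW h5 h3⟩
  rw [h2, card_sdiff_add_card_inter]

lemma sign_eq {S : Type*} [CommRing S] {R W : Finset V} {A : Finset E} (hRW : Disjoint R W)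
    (hends : ∀ e ∈ A, a e ∈ R ∪ W ∧ b e ∈ R ∪ W) :
    (-1 : S) ^ (W \ reach a b R A).card * (-1) ^ (nul a b R A) = (-1) ^ W.card * (-1) ^ A.card := by
  have h1 := card_split hRW hends
  have h2 := nul_add a b R A
  rw [← h1, ← h2, ← pow_add, ← pow_add]
  have : (W \ reach a b R A).card + (reach a b R A \ R).card +
      (nul a b R A + (reach a b R A \ R).card) =
      ((W \ reach a b R A).card + nul a b R A) + 2 * (reach a b R A \ R).card := by ring
  rw [this, pow_add _ _ (2 * _), pow_mul]
  simp

open PowerSeries in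
lemma constCoeff_F {R W K : Finset V} {B : Finset E} (hRW : Disjoint R W)
    (hends : ∀ e ∈ B, a e ∈ R ∪ W ∧ b e ∈ R ∪ W) (hK : K ⊆ W) (β : V → PowerSeries ℚ)
    (hβ1 : ∀ v ∈ W, v ∉ K → constantCoeff (β v) = -1)
    (hβ0 : ∀ v ∈ K, constantCoeff (β v) = 0) :
    constantCoeff (F a b X R W B β) = (-1) ^ W.card * (D a b R B K : ℚ) := by
  unfold F D
  rw [map_sum, Int.cast_sum, mul_sum]
  refine sum_congr rfl (fun A hA => ?_)
  rw [mem_powerset] at hA
  rw [map_mul, map_prod, map_pow, map_sub, constantCoeff_X, map_one, zero_sub]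
  split_ifs with h
  · have h1 : ∏ v ∈ W \ reach a b R A, constantCoeff (β v) = (-1) ^ (W \ reach a b R A).card := by
      rw [← prod_const]
      refine prod_congr rfl (fun v hv => ?_)
      rw [mem_sdiff] at hv
      exact hβ1 v hv.1 (fun h' => hv.2 (h h'))
    rw [h1, sign_eq hRW (fun e he => hends e (hA he))]
    push_cast
    ring
  · obtain ⟨v, hv, hv2⟩ := Finset.not_subset.1 h
    rw [prod_eq_zero (mem_sdiff.2 ⟨hK hv, hv2⟩) (hβ0 v hv)]
    simp

lemma sum_neg_one_card_mul {B : Finset E} (hB : 2 ≤ B.card) :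
    ∑ A ∈ B.powerset, (-1 : ℚ) ^ A.card * A.card = 0 := by
  obtain ⟨e, he⟩ := card_pos.1 (show 0 < B.card by omega)
  have hne : (B.erase e).Nonempty := by
    rw [← card_pos, card_erase_of_mem he]; omega
  rw [← insert_erase he, sum_powerset_insert (notMem_erase _ _), ← sum_add_distrib]
  have : ∀ A ∈ (B.erase e).powerset, (-1 : ℚ) ^ A.card * A.card +
      (-1 : ℚ) ^ (insert e A).card * (insert e A).card = - ((-1 : ℤ) ^ A.card : ℤ) := by
    intro A hA
    rw [mem_powerset] at hA
    rw [card_insert_of_notMem (fun h => notMem_erase e B (hA h))]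
    push_cast
    ring
  rw [sum_congr rfl this, sum_neg_distrib, ← Int.cast_sum, sum_powerset_neg_one_pow_card_of_nonempty hne]
  simp

open PowerSeries in
lemma coeff_one_F {R W : Finset V} {B : Finset E} (hRW : Disjoint R W)
    (hends : ∀ e ∈ B, a e ∈ R ∪ W ∧ b e ∈ R ∪ W) (β : V → PowerSeries ℚ)
    (hβ : ∀ v ∈ W, β v = -1) (hB : 2 ≤ B.card) :
    coeff 1 (F a b X R W B β) = ∑ z ∈ W, (-1) ^ W.card * (D a b R B {z} : ℚ) := by
  have h1 : coeff 1 (F a b X R W B β) = ∑ A ∈ B.powerset,
      ((-1) ^ W.card * ((-1) ^ A.card * ((reach a b R A \ R).card : ℚ)) -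
        (-1) ^ W.card * ((-1 : ℚ) ^ A.card * A.card)) := by
    unfold F
    rw [map_sum]
    refine sum_congr rfl (fun A hA => ?_)
    rw [mem_powerset] at hA
    have h2 : ∏ v ∈ W \ reach a b R A, β v = C ((-1) ^ (W \ reach a b R A).card) := by
      rw [map_pow, map_neg, map_one, ← prod_const]
      refine prod_congr rfl (fun v hv => hβ v (mem_sdiff.1 hv).1)
    rw [h2, coeff_C_mul, coeff_one_pow]
    have h3 : coeff 1 (X - 1 : PowerSeries ℚ) = 1 := by
      rw [map_sub, coeff_one_X, coeff_one]; simp
    have h4 : constantCoeff (X - 1 : PowerSeries ℚ) = -1 := by simp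
    rw [h3, h4]
    have h5 := sign_eq (S := ℚ) hRW (fun e he => hends e (hA he))
    have h6 : ((nul a b R A : ℕ) : ℚ) * (-1) ^ (nul a b R A - 1) =
        - (nul a b R A : ℚ) * (-1) ^ (nul a b R A) := by
      rcases Nat.eq_zero_or_pos (nul a b R A) with h | h
      · rw [h]; simp
      · obtain ⟨m, hm⟩ := Nat.exists_eq_succ_of_ne_zero h.ne'
        rw [hm, Nat.succ_sub_one, pow_succ]; ring
    have h7 : (nul a b R A : ℚ) = A.card - (reach a b R A \ R).card := by
      rw [← nul_add a b R A]; push_cast; ring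
    calc _ = (-1) ^ (W \ reach a b R A).card * ((nul a b R A : ℚ) * (-1) ^ (nul a b R A - 1)) := by
          ring
      _ = - (nul a b R A : ℚ) * ((-1) ^ (W \ reach a b R A).card * (-1) ^ (nul a b R A)) := by
          rw [h6]; ring
      _ = _ := by rw [h5, h7]; ring
  rw [h1, sum_sub_distrib, ← mul_sum, ← mul_sum, sum_neg_one_card_mul hB, mul_zero, sub_zero,
    ← mul_sum]
  congr 1
  unfold D
  push_cast
  rw [sum_comm]
  refine sum_congr rfl (fun A hA => ?_)
  rw [mem_powerset] at hA
  have h2 := card_split hRW (fun e he => hends e (hA he))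
  have h3 : (reach a b R A \ R).card = (W.filter (fun z => {z} ⊆ reach a b R A)).card := by
    have h4 : W.filter (fun z => {z} ⊆ reach a b R A) = W ∩ reach a b R A := by
      ext v; simp [mem_inter]
    rw [h4]
    have h5 := card_sdiff_add_card_inter W (reach a b R A)
    omega
  rw [h3, Finset.card_filter]
  push_cast
  rw [mul_sum]
  refine sum_congr rfl (fun z _ => ?_)
  split_ifs <;> simp

open PowerSeries in
lemma exists_factor {p : Polynomial ℚ} {n : ℕ} (hp : p ≠ 0) (hn : p.natDegree < n) :
    ∃ q : PowerSeries ℚ, (p : PowerSeries ℚ) * q = X ^ n ∧ constantCoeff q = 0 := by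
  set P : PowerSeries ℚ := (p : PowerSeries ℚ) with hP
  have hP0 : P ≠ 0 := by
    rw [hP]
    intro h
    apply hp
    exact Polynomial.coe_inj.1 (by rw [h, Polynomial.coe_zero])
  have h1 : P.order ≤ p.natDegree := by
    apply order_le
    rw [hP, Polynomial.coeff_coe]
    exact Polynomial.leadingCoeff_ne_zero.2 hp
  have h2 : P.order.toNat ≤ p.natDegree := by
    have h3 : P.order ≠ ⊤ := by
      intro h; rw [h] at h1; simp at h1
    exact ENat.toNat_le_of_le_natCast h1
  have h3 := X_pow_order_mul_divXPowOrder (f := P)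
  have h4 : constantCoeff (divXPowOrder P) ≠ 0 := by
    rw [Ne, constantCoeff_divXPowOrder_eq_zero_iff]
    exact hP0
  refine ⟨X ^ (n - P.order.toNat) * (divXPowOrder P)⁻¹, ?_, ?_⟩
  · calc P * (X ^ (n - P.order.toNat) * (divXPowOrder P)⁻¹)
        = (X ^ P.order.toNat * divXPowOrder P) * (X ^ (n - P.order.toNat) * (divXPowOrder P)⁻¹) := by
          rw [h3]
      _ = (X ^ P.order.toNat * X ^ (n - P.order.toNat)) *
          (divXPowOrder P * (divXPowOrder P)⁻¹) := by ring
      _ = X ^ n := by
          rw [PowerSeries.mul_inv_cancel _ h4, mul_one, ← pow_add]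
          congr 1; omega
  · rw [map_mul, map_pow, constantCoeff_X, zero_pow (by omega), zero_mul]

lemma map_F {S T : Type*} [CommRing S] [CommRing T] (φ : S →+* T) (y : S) (R W : Finset V)
    (B : Finset E) (β : V → S) :
    φ (F a b y R W B β) = F a b (φ y) R W B (fun v => φ (β v)) := by
  unfold F
  rw [map_sum]
  refine sum_congr rfl (fun A _ => ?_)
  rw [map_mul, map_prod, map_pow, map_sub, map_one]

lemma F_congr {S : Type*} [CommRing S] (y : S) (R W : Finset V)
    (B : Finset E) {β β' : V → S} (h : ∀ v ∈ W, β v = β' v) :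
    F a b y R W B β = F a b y R W B β' := by
  unfold F
  refine sum_congr rfl (fun A _ => ?_)
  rw [prod_congr rfl (fun v hv => h v (mem_sdiff.1 hv).1)]

open PowerSeries in
/-- The polynomial of a hanging part has small degree. -/
lemma exists_factor_F {C : Finset V} {B2 : Finset E} {w : V} {β : V → PowerSeries ℚ}
    (hβ : ∀ v ∈ C, β v = -1) (hwC : w ∉ C)
    (hedge : ∃ e ∈ B2, ∃ v ∈ C, Joins a b e w v) (hF : F a b X {w} C B2 β ≠ 0) :
    ∃ q : PowerSeries ℚ, F a b X {w} C B2 β * q = X ^ B2.card ∧ constantCoeff q = 0 := by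
  have hnul : ∀ A ⊆ B2, nul a b {w} A ≤ B2.card - 1 := by
    intro A hA
    have h1 := nul_add a b {w} A
    have h2 := card_le_card hA
    by_cases hAB : A = B2
    · obtain ⟨e, he, v, hv, hj⟩ := hedge
      have h3 : v ∈ reach a b {w} A \ {w} := by
        rw [mem_sdiff]
        have h4 := cl_reach a b {w} A e (hAB ▸ he)
        have h5 : w ∈ reach a b {w} A := subset_reach a b _ _ (mem_singleton_self w)
        refine ⟨?_, ?_⟩
        · rcases hj with ⟨h6, h7⟩ | ⟨h6, h7⟩
          · rw [h6, h7] at h4; exact h4.1 h5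
          · rw [h6, h7] at h4; exact h4.2 h5
        · rw [mem_singleton]; rintro rfl; exact hwC hv
      have := card_pos.2 ⟨v, h3⟩
      omega
    · have := card_lt_card (Finset.ssubset_iff_subset_ne.2 ⟨hA, hAB⟩)
      omega
  obtain ⟨e0, he0, _⟩ := hedge
  have hpos := card_pos.2 ⟨e0, he0⟩
  have hmap : ((F a b (Polynomial.X : Polynomial ℚ) {w} C B2 (fun _ => -1) : Polynomial ℚ) :
      PowerSeries ℚ) = F a b X {w} C B2 β := by
    have := map_F (a := a) (b := b) (Polynomial.coeToPowerSeries.ringHom (R := ℚ)) Polynomial.X {w} C B2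
      (fun _ => -1)
    rw [Polynomial.coeToPowerSeries.ringHom_apply] at this
    rw [this, Polynomial.coeToPowerSeries.ringHom_apply, Polynomial.coe_X]
    apply F_congr
    intro v hv
    rw [hβ v hv, map_neg, map_one]
  rw [← hmap] at hF ⊢
  apply exists_factor
  · intro h
    apply hF
    rw [h, Polynomial.coe_zero]
  · have : (F a b (Polynomial.X : Polynomial ℚ) {w} C B2 (fun _ => -1)).natDegree ≤ B2.card - 1 := by
      unfold F
      apply Polynomial.natDegree_sum_le_of_forall_le
      intro A hA
      rw [mem_powerset] at hA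
      rw [prod_const]
      have h1 : ((-1 : Polynomial ℚ) ^ (C \ reach a b {w} A).card).natDegree = 0 := by
        have : (-1 : Polynomial ℚ) ^ (C \ reach a b {w} A).card =
            Polynomial.C ((-1) ^ (C \ reach a b {w} A).card) := by simp
        rw [this, Polynomial.natDegree_C]
      refine (Polynomial.natDegree_mul_le).trans ?_
      rw [h1, zero_add]
      refine (Polynomial.natDegree_pow_le).trans ?_
      have h2 : (Polynomial.X - 1 : Polynomial ℚ).natDegree = 1 := by
        have := Polynomial.natDegree_X_sub_C (1 : ℚ)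
        simpa using this
      rw [h2, mul_one]
      exact hnul A hA
    omega

lemma F_loop {S : Type*} [CommRing S] (y : S) (R W : Finset V)
    {B : Finset E} (β : V → S) {e : E} (he : e ∈ B) (hl : a e = b e) :
    F a b y R W B β = y * F a b y R W (B.erase e) β := by
  have h0 : F a b y R W B β = F a b y R W (insert e (B.erase e)) β := by rw [insert_erase he]
  rw [h0]
  unfold F
  rw [sum_powerset_insert (notMem_erase _ _), ← sum_add_distrib, mul_sum]
  refine sum_congr rfl (fun A hA => ?_)
  rw [mem_powerset] at hA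
  have heA : e ∉ A := fun h => notMem_erase e B (hA h)
  have hr : reach a b R (insert e A) = reach a b R A := reach_insert_of_cl a b (by rw [hl])
  have hn : nul a b R (insert e A) = nul a b R A + 1 := by
    have h1 := nul_add a b R (insert e A)
    have h2 := nul_add a b R A
    rw [hr, card_insert_of_notMem heA] at h1
    omega
  rw [hr, hn]
  ring

/-- `v` is a root leaf (up to loops): exactly one non-loop edge of `B` is at `v`, and this
edge joins `v` to `r`. -/
def RL (a b : E → V) (r : V) (B : Finset E) (v : V) : Prop :=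
  ∃ e ∈ B, Joins a b e r v ∧ ∀ f ∈ B, f ≠ e → (a f = v ∨ b f = v) → a f = b f

lemma RL.mono {r v : V} {B B' : Finset E} (h : RL a b r B v) (hB : B ⊆ B')
    (h2 : ∀ f ∈ B', f ∉ B → (a f = v ∨ b f = v) → a f = b f) : RL a b r B' v := by
  obtain ⟨e, he, hj, h3⟩ := h
  refine ⟨e, hB he, hj, ?_⟩
  intro f hf hfe hfv
  by_cases hfB : f ∈ B
  · exact h3 f hfB hfe hfv
  · exact h2 f hf hfB hfv

end Pool.Agent.Lib4c49
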