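import Pool.Agent.Lib_MP_4c49f5_co.ClaimW

set_option autoImplicit false
set_option linter.unusedSectionVars false
set_option linter.unusedVariables false
set_option maxHeartbeats 4000000

namespace Pool.Agent.Lib4c49

open Finset

variable {V E : Type*} [Fintype V] [DecidableEq V] [DecidableEq E] {a b : E → V}

open PowerSeries in
open Classical in
theorem claimW (r : V) (n : ℕ) : ∀ (W : Finset V) (B : Finset E) (β : V → PowerSeries ℚ),
    W.card + B.card = n → r ∉ W → (∀ e ∈ B, a e ∈ insert r W ∧ b e ∈ insert r W) →
    (∀ v ∈ W, β v = -1 ∨ (β v ≠ 0 ∧ constantCoeff (β v) = 0)) →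
    F a b X {r} W B β = 0 → ∃ v ∈ W, β v = -1 ∧ RL a b r B v := by
  induction n using Nat.strong_induction_on with
  | _ n ih =>
  intro W B β hn hrW hends hβ hF
  have hβne : ∀ v ∈ W, β v ≠ 0 := by
    intro v hv
    rcases hβ v hv with h | h
    · rw [h]; simp
    · exact h.1
  -- loops
  by_cases hloop : ∃ e ∈ B, a e = b e
  · obtain ⟨e, he, hl⟩ := hloop
    rw [F_loop X {r} W β he hl] at hF
    have hF2 := (mul_eq_zero.1 hF).resolve_left X_ne_zero
    have hc : W.card + (B.erase e).card < n := by
      rw [card_erase_of_mem he]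
      have := card_pos.2 ⟨e, he⟩
      omega
    obtain ⟨v, hv, hv1, hv2⟩ := ih _ hc W (B.erase e) β rfl hrW
      (fun f hf => hends f (mem_of_mem_erase hf)) hβ hF2
    refine ⟨v, hv, hv1, hv2.mono (erase_subset _ _) ?_⟩
    intro f hf hf2 _
    have : f = e := by
      by_contra hfe
      exact hf2 (mem_erase.2 ⟨hfe, hf⟩)
    rw [this]; exact hl
  push Not at hloop
  -- a proper part hanging at the root
  by_cases hprod : ∃ C ⊆ W, C.Nonempty ∧ C ≠ W ∧ Within a b B C (insert r C)
  · obtain ⟨C, hCW, hCne, hCneW, hwi⟩ := hprod
    set B2 := B.filter (fun e => a e ∈ C ∨ b e ∈ C) with hB2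
    set B1 := B.filter (fun e => ¬ (a e ∈ C ∨ b e ∈ C)) with hB1
    have hBu : B1 ∪ B2 = B := by
      ext e; simp only [hB1, hB2, mem_union, mem_filter]; (first | grind | tauto)
    have hBd : Disjoint B1 B2 := by
      rw [Finset.disjoint_left]
      intro e h1 h2
      exact (mem_filter.1 h1).2 (mem_filter.1 h2).2
    have hrC : r ∉ C := fun h => hrW (hCW h)
    have hB1' : ∀ e ∈ B1, a e ∉ C ∧ b e ∉ C := by
      intro e he
      have := (mem_filter.1 he).2
      push Not at this
      exact this
    have hB2' : ∀ e ∈ B2, a e ∈ insert r C ∧ b e ∈ insert r C := by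
      intro e he
      rw [mem_filter] at he
      exact hwi e he.1 he.2
    have hg := gluing_root (a := a) (b := b) (R := {r}) (X : PowerSeries ℚ) β (by simpa using hrC)
      (mem_singleton_self r) hCW hBd hB1' hB2'
    rw [hBu, hF] at hg
    have hB1B : B1 ⊆ B := filter_subset _ _
    have hB2B : B2 ⊆ B := filter_subset _ _
    have hcB1 := card_le_card hB1B
    have hcB2 := card_le_card hB2B
    rcases mul_eq_zero.1 hg.symm with h | h
    · have hc : (W \ C).card + B1.card < n := by
        have h1 : (W \ C).card + C.card = W.card := card_sdiff_add_card_eq_card hCW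
        have h2 := card_pos.2 hCne
        omega
      obtain ⟨v, hv, hv1, hv2⟩ := ih _ hc (W \ C) B1 β rfl (fun h => hrW (mem_sdiff.1 h).1)
        (by
          intro e he
          have h1 := hends e (hB1B he)
          have h2 := hB1' e he
          simp only [mem_insert, mem_sdiff] at h1 ⊢
          (first | grind | tauto)) (fun v hv => hβ v (mem_sdiff.1 hv).1) h
      rw [mem_sdiff] at hv
      refine ⟨v, hv.1, hv1, hv2.mono hB1B ?_⟩
      intro f hf hf2 hfv
      exfalso
      have hf3 : a f ∈ C ∨ b f ∈ C := by
        by_contra hcon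
        exact hf2 (mem_filter.2 ⟨hf, hcon⟩)
      have h3 := hwi f hf hf3
      have h4 : v ∈ insert r C := by
        rcases hfv with h | h
        · rw [← h]; exact h3.1
        · rw [← h]; exact h3.2
      rcases mem_insert.1 h4 with h5 | h5
      · exact hrW (h5 ▸ hv.1)
      · exact hv.2 h5
    · have hc : C.card + B2.card < n := by
        have h1 := card_lt_card (Finset.ssubset_iff_subset_ne.2 ⟨hCW, hCneW⟩)
        omega
      obtain ⟨v, hv, hv1, hv2⟩ := ih _ hc C B2 β rfl hrC hB2' (fun v hv => hβ v (hCW hv)) h
      refine ⟨v, hCW hv, hv1, hv2.mono hB2B ?_⟩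
      intro f hf hf2 hfv
      exfalso
      apply hf2
      rw [mem_filter]
      refine ⟨hf, ?_⟩
      rcases hfv with h | h
      · rw [h]; exact Or.inl hv
      · rw [h]; exact Or.inr hv
  push Not at hprod
  -- nothing leaves the root
  by_cases hcl : Cl a b B W
  · exfalso
    have h1 : ∀ A ∈ B.powerset, (∏ v ∈ W \ reach a b {r} A, β v) * (X - 1) ^ (nul a b {r} A) =
        (∏ v ∈ W, β v) * (X - 1) ^ A.card := by
      intro A hA
      rw [mem_powerset] at hA
      have h2 : reach a b {r} A = {r} := by
        apply reach_eq a b subset_rfl _ (subset_reach a b _ _)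
        intro e he
        have h3 := hends e (hA he)
        have h4 := hcl e (hA he)
        simp only [mem_insert, mem_singleton] at h3 ⊢
        constructor
        · intro h5
          have h6 : b e ∉ W := fun h => hrW (h5 ▸ h4.2 h)
          (first | grind | tauto)
        · intro h5
          have h6 : a e ∉ W := fun h => hrW (h5 ▸ h4.1 h)
          (first | grind | tauto)
      have h3 := nul_add a b {r} A
      rw [h2] at h3
      rw [Finset.sdiff_self, card_empty, add_zero] at h3
      rw [h2, h3, sdiff_singleton_eq_erase, erase_eq_of_notMem hrW]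
    unfold F at hF
    rw [sum_congr rfl h1, ← mul_sum, sum_pow_card] at hF
    rcases mul_eq_zero.1 hF with h | h
    · obtain ⟨v, hv, hv2⟩ := prod_eq_zero_iff.1 h
      exact hβne v hv hv2
    · exact (pow_ne_zero _ X_ne_zero) h
  have hWne : W.Nonempty := by
    rw [nonempty_iff_ne_empty]
    rintro rfl
    exact hcl (fun e he => by simp)
  have hconn : ∀ C ⊆ W, C.Nonempty → ¬ Cl a b B C := by
    intro C hC hne hclC
    by_cases hCW : C = W
    · rw [hCW] at hclC; exact hcl hclC
    · apply hprod C hC hne hCW
      intro e he h1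
      have h2 := hclC e he
      simp only [mem_insert]
      (first | grind | tauto)
  -- a bad part
  by_cases hbad : ∃ C ⊆ W, C.Nonempty ∧ (∀ v ∈ C, β v = -1) ∧ ∃ w ∈ W, w ∉ C ∧
      Within a b B C (insert w C)
  · obtain ⟨C, hCW, hCne, hC1, w, hwW, hwC, hwi⟩ := hbad
    set B2 := B.filter (fun e => a e ∈ C ∨ b e ∈ C) with hB2
    set B1 := B.filter (fun e => ¬ (a e ∈ C ∨ b e ∈ C)) with hB1
    have hBu : B1 ∪ B2 = B := by
      ext e; simp only [hB1, hB2, mem_union, mem_filter]; (first | grind | tauto)
    have hBd : Disjoint B1 B2 := by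
      rw [Finset.disjoint_left]
      intro e h1 h2
      exact (mem_filter.1 h1).2 (mem_filter.1 h2).2
    have hrC : r ∉ C := fun h => hrW (hCW h)
    have hB1' : ∀ e ∈ B1, a e ∉ C ∧ b e ∉ C := by
      intro e he
      have := (mem_filter.1 he).2
      push Not at this
      exact this
    have hB2' : ∀ e ∈ B2, a e ∈ insert w C ∧ b e ∈ insert w C := by
      intro e he
      rw [mem_filter] at he
      exact hwi e he.1 he.2
    have hB1B : B1 ⊆ B := filter_subset _ _
    have hB2B : B2 ⊆ B := filter_subset _ _
    have hcB1 := card_le_card hB1B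
    have hcB2 := card_le_card hB2B
    have hcWC : (W \ C).card + C.card = W.card := card_sdiff_add_card_eq_card hCW
    have hcC := card_pos.2 hCne
    have hprodC : (∏ v ∈ C, β v) = (-1) ^ C.card := by
      rw [← prod_const]
      exact prod_congr rfl hC1
    have hrC' : Disjoint ({r} : Finset V) C := by simpa using hrC
    have hwr : w ≠ r := fun h => hrW (h ▸ hwW)
    -- edges at a vertex outside `C ∪ {w}` are in `B1`
    have hout : ∀ v, v ∉ C → v ≠ w → ∀ f ∈ B, (a f = v ∨ b f = v) → f ∈ B1 := by
      intro v hvC hvw f hf hfv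
      by_contra hf2
      have hf3 : a f ∈ C ∨ b f ∈ C := by
        by_contra hcon
        exact hf2 (mem_filter.2 ⟨hf, hcon⟩)
      have h3 := hwi f hf hf3
      have h4 : v ∈ insert w C := by
        rcases hfv with h | h
        · rw [← h]; exact h3.1
        · rw [← h]; exact h3.2
      rcases mem_insert.1 h4 with h5 | h5
      · exact hvw h5
      · exact hvC h5
    by_cases hP : F a b X {w} C B2 β = 0
    · -- the hanging polynomial vanishes
      have hg := gluing_zero (a := a) (b := b) (R := {r}) (X : PowerSeries ℚ) β hrC' hwC hCW hBd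
        hB1' hB2' hP
      rw [hBu, hF] at hg
      have hG : G a b X {r} (W \ C) B1 w β = 0 := by
        rcases mul_eq_zero.1 hg.symm with h | h
        · exact h
        · exfalso
          rw [hprodC] at h
          rcases mul_eq_zero.1 h with h | h
          · exact (pow_ne_zero _ (neg_ne_zero.2 one_ne_zero)) h
          · exact (pow_ne_zero _ X_ne_zero) h
      set B3 := B1.filter (fun e => ¬ (a e = w ∨ b e = w)) with hB3
      set B4 := B1.filter (fun e => a e = w ∨ b e = w) with hB4
      have hBu' : B3 ∪ B4 = B1 := by
        ext e; simp only [hB3, hB4, mem_union, mem_filter]; (first | grind | tauto)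
      have hBd' : Disjoint B3 B4 := by
        rw [Finset.disjoint_left]
        intro e h1 h2
        exact (mem_filter.1 h1).2 (mem_filter.1 h2).2
      have hB3' : ∀ e ∈ B3, a e ≠ w ∧ b e ≠ w := by
        intro e he
        have := (mem_filter.1 he).2
        push Not at this
        exact this
      have hwWC : w ∈ W \ C := mem_sdiff.2 ⟨hwW, hwC⟩
      have hB4' : ∀ e ∈ B4, (a e = w ∨ b e = w) ∧ a e ≠ b e ∧ a e ∈ {r} ∪ (W \ C) ∧
          b e ∈ {r} ∪ (W \ C) := by
        intro e he
        rw [mem_filter] at he
        have h1 := hends e (hB1B he.1)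
        have h2 := hB1' e he.1
        refine ⟨he.2, hloop e (hB1B he.1), ?_, ?_⟩
        · simp only [mem_insert, mem_union, mem_singleton, mem_sdiff] at h1 ⊢; (first | grind | tauto)
        · simp only [mem_insert, mem_union, mem_singleton, mem_sdiff] at h1 ⊢; (first | grind | tauto)
      have hGe := G_eq (a := a) (b := b) (X : PowerSeries ℚ) β (R := {r}) (W := W \ C)
        (by simp [hrW]) hwWC hBd' hB3' hB4'
      rw [hBu', hG] at hGe
      have hF2 := (mul_eq_zero.1 hGe.symm).resolve_left (hβne w hwW)
      have hB3B1 : B3 ⊆ B1 := filter_subset _ _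
      have hcB3 := card_le_card hB3B1
      have hc : ((W \ C).erase w).card + B3.card < n := by
        rw [card_erase_of_mem hwWC]
        omega
      obtain ⟨v, hv, hv1, hv2⟩ := ih _ hc ((W \ C).erase w) B3 _ rfl
        (fun h => hrW (mem_sdiff.1 (mem_of_mem_erase h)).1)
        (by
          intro e he
          have h1 := hends e (hB1B (hB3B1 he))
          have h2 := hB1' e (hB3B1 he)
          have h3 := hB3' e he
          simp only [mem_insert, mem_sdiff, mem_erase] at h1 ⊢
          (first | grind | tauto))
        (by
          intro v hv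
          have hvW := (mem_sdiff.1 (mem_of_mem_erase hv)).1
          rcases Nat.eq_zero_or_pos (mult a b B4 w v) with h | h
          · rw [h, pow_zero, one_mul]
            exact hβ v hvW
          · right
            refine ⟨mul_ne_zero (pow_ne_zero _ X_ne_zero) (hβne v hvW), ?_⟩
            rw [map_mul, map_pow, constantCoeff_X, zero_pow h.ne', zero_mul]) hF2
      have hm : mult a b B4 w v = 0 := by
        by_contra h
        have := congrArg constantCoeff hv1
        rw [map_mul, map_pow, constantCoeff_X, zero_pow h, zero_mul] at this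
        simp at this
      rw [hm, pow_zero, one_mul] at hv1
      rw [mem_erase, mem_sdiff] at hv
      refine ⟨v, hv.2.1, hv1, hv2.mono (hB3B1.trans hB1B) ?_⟩
      intro f hf hf2 hfv
      exfalso
      have hfB1 := hout v hv.2.2 hv.1 f hf hfv
      have hfB4 : f ∈ B4 := by
        rw [← hBu'] at hfB1
        exact (mem_union.1 hfB1).resolve_left hf2
      have hfw := (mem_filter.1 hfB4).2
      have hoth : oth a b w f = v := by
        rcases oth_joins (a := a) (b := b) hfw with ⟨h5, h6⟩ | ⟨h5, h6⟩
        · rcases hfv with h7 | h7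
          · exact absurd (h7.symm.trans h5) hv.1
          · exact h6.symm.trans h7
        · rcases hfv with h7 | h7
          · exact h5.symm.trans h7
          · exact absurd (h7.symm.trans h6) hv.1
      have : f ∈ B4.filter (fun e => oth a b w e = v) := mem_filter.2 ⟨hfB4, hoth⟩
      unfold mult at hm
      rw [card_eq_zero] at hm
      rw [hm] at this
      simp at this
    · -- the hanging polynomial does not vanish
      have hedge : ∃ e ∈ B2, ∃ v ∈ C, Joins a b e w v := by
        obtain ⟨e, he, he2⟩ := exists_of_not_cl (hconn C hCW hCne)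
        have he3 : a e ∈ C ∨ b e ∈ C := by (first | grind | tauto)
        have h1 := hwi e he he3
        refine ⟨e, mem_filter.2 ⟨he, he3⟩, ?_⟩
        simp only [mem_insert] at h1
        by_cases h2 : a e ∈ C
        · have h3 : b e ∉ C := by (first | grind | tauto)
          exact ⟨a e, h2, Or.inr ⟨rfl, h1.2.resolve_right h3⟩⟩
        · have h3 : b e ∈ C := by (first | grind | tauto)
          exact ⟨b e, h3, Or.inl ⟨h1.1.resolve_right h2, rfl⟩⟩
      obtain ⟨q, hq, hq0⟩ := exists_factor_F hC1 hwC hedge hP
      have hqne : q ≠ 0 := by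
        rintro rfl
        rw [mul_zero] at hq
        exact (pow_ne_zero _ X_ne_zero) hq.symm
      have hg := gluing_mul (a := a) (b := b) (R := {r}) (X : PowerSeries ℚ) β hrC' hwC hCW hwW hBd
        hB1' hB2' (β w * ((-1) ^ C.card * q)) (by rw [hprodC, ← hq]; ring)
      rw [hBu, hF] at hg
      have hF2 := (mul_eq_zero.1 hg.symm).resolve_left hP
      have hc : (W \ C).card + B1.card < n := by omega
      obtain ⟨v, hv, hv1, hv2⟩ := ih _ hc (W \ C) B1 _ rfl
        (fun h => hrW (mem_sdiff.1 h).1)
        (by
          intro e he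
          have h1 := hends e (hB1B he)
          have h2 := hB1' e he
          simp only [mem_insert, mem_sdiff] at h1 ⊢
          (first | grind | tauto))
        (by
          intro v hv
          have hvW := (mem_sdiff.1 hv).1
          by_cases hvw : v = w
          · right
            rw [hvw, Function.update_self]
            refine ⟨mul_ne_zero (hβne w hwW) (mul_ne_zero
              (pow_ne_zero _ (neg_ne_zero.2 one_ne_zero)) hqne), ?_⟩
            rw [map_mul, map_mul, hq0, mul_zero, mul_zero]
          · rw [Function.update_of_ne hvw]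
            exact hβ v hvW) hF2
      have hvw : v ≠ w := by
        rintro rfl
        rw [Function.update_self] at hv1
        have := congrArg constantCoeff hv1
        rw [map_mul, map_mul, hq0, mul_zero, mul_zero] at this
        simp at this
      rw [Function.update_of_ne hvw] at hv1
      rw [mem_sdiff] at hv
      refine ⟨v, hv.1, hv1, hv2.mono hB1B ?_⟩
      intro f hf hf2 hfv
      exact absurd (hout v hv.2 hvw f hf hfv) hf2
  push Not at hbad
  -- now positivity applies
  have hdisj : Disjoint ({r} : Finset V) W := by simpa using hrW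
  have hends' : ∀ e ∈ B, a e ∈ {r} ∪ W ∧ b e ∈ {r} ∪ W := by
    intro e he
    have := hends e he
    simpa only [mem_insert, mem_union, mem_singleton] using this
  have hnoR : ∀ e ∈ B, ¬ (a e ∈ ({r} : Finset V) ∧ b e ∈ ({r} : Finset V)) := by
    intro e he h
    rw [mem_singleton, mem_singleton] at h
    exact hloop e he (h.1.trans h.2.symm)
  set K := W.filter (fun v => β v ≠ -1) with hK
  have hKW : K ⊆ W := filter_subset _ _
  have hdK : ∀ C ⊆ W, Disjoint C K → ∀ v ∈ C, β v = -1 := by
    intro C hC hd v hv
    by_contra hne
    exact Finset.disjoint_left.1 hd hv (mem_filter.2 ⟨hC hv, hne⟩)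
  have hstar : ∀ K' ⊆ W, K ⊆ K' → K'.Nonempty → Hyp a b {r} W B K' := by
    intro K' hK' hKK' hne'
    refine ⟨hdisj, hK', hends', hloop, hnoR, hconn, ?_, ?_⟩
    · intro C hC hne hd hwi
      have hCW : C ≠ W := by
        rintro rfl
        obtain ⟨z, hz⟩ := hne'
        exact Finset.disjoint_left.1 hd (hK' hz) hz
      apply hprod C hC hne hCW
      intro e he h1
      have := hwi e he h1
      simp only [mem_insert, mem_union, mem_singleton] at this ⊢
      (first | grind | tauto)
    · intro C hC hne hd w hw hwC hwi
      exact hbad C hC hne (hdK C hC (hd.mono_right hKK')) w hw hwC hwi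
  by_cases hKne : K.Nonempty
  · exfalso
    have h1 := D_pos B.card {r} W B K rfl (hstar K hKW subset_rfl hKne)
    have h2 := constCoeff_F (a := a) (b := b) hdisj hends' hKW β
      (by
        intro v hv hvK
        have : β v = -1 := by
          by_contra hne
          exact hvK (mem_filter.2 ⟨hv, hne⟩)
        rw [this]; simp)
      (by
        intro v hv
        rw [mem_filter] at hv
        exact ((hβ v hv.1).resolve_left hv.2).2)
    rw [hF, map_zero] at h2
    have h3 : (((-1) ^ W.card * D a b {r} B K : ℤ) : ℚ) = 0 := by
      push_cast; exact h2.symm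
    have h4 := Int.cast_eq_zero.1 h3
    omega
  · rw [not_nonempty_iff_eq_empty] at hKne
    have hβ1 : ∀ v ∈ W, β v = -1 := by
      intro v hv
      by_contra hne
      have : v ∈ K := mem_filter.2 ⟨hv, hne⟩
      rw [hKne] at this
      simp at this
    by_cases hB : 2 ≤ B.card
    · exfalso
      have h1 : ∀ z ∈ W, 0 < (-1) ^ W.card * D a b {r} B {z} := by
        intro z hz
        exact D_pos B.card {r} W B {z} rfl (hstar {z} (by simpa using hz) (by rw [hKne]; simp)
          (singleton_nonempty z))
      have h2 := coeff_one_F (a := a) (b := b) hdisj hends' β hβ1 hB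
      rw [hF, map_zero] at h2
      have h3 : (0 : ℚ) < ∑ z ∈ W, (-1) ^ W.card * (D a b {r} B {z} : ℚ) := by
        apply sum_pos _ hWne
        intro z hz
        have := h1 z hz
        have h4 : (0 : ℚ) < (((-1) ^ W.card * D a b {r} B {z} : ℤ) : ℚ) := by exact_mod_cast this
        push_cast at h4
        exact h4
      rw [← h2] at h3
      exact lt_irrefl _ h3
    · obtain ⟨e, he, he2⟩ := exists_of_not_cl hcl
      have h1 := hends e he
      simp only [mem_insert] at h1
      have hBe : ∀ f ∈ B, f = e := by
        intro f hf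
        have : B.card ≤ 1 := by omega
        exact card_le_one.1 this f hf e he
      by_cases h2 : a e ∈ W
      · have h3 : b e ∉ W := by (first | grind | tauto)
        refine ⟨a e, h2, hβ1 _ h2, e, he, Or.inr ⟨rfl, h1.2.resolve_right h3⟩, ?_⟩
        intro f hf hfe
        exact absurd (hBe f hf) hfe
      · have h3 : b e ∈ W := by (first | grind | tauto)
        refine ⟨b e, h3, hβ1 _ h3, e, he, Or.inl ⟨h1.1.resolve_right h2, rfl⟩, ?_⟩
        intro f hf hfe
        exact absurd (hBe f hf) hfe

end Pool.Agent.Lib4c49
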