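import Mathlib

set_option autoImplicit false

namespace Pool.Agent.Lib4c49

open Finset

variable {V E : Type*}

/-- In the multigraph with edges `E`, where the edge `e` has the two ends `ends e`
(a loop if they are equal), `F` is the edge set of a tree that contains the vertex `r`: there is
a set `U` of vertices with `r ∈ U`, all edges of `F` have both ends in `U`, no edge of `F` is a loop,
no two edges of `F` are parallel, and the simple graph on `U` with these edges is a tree. -/
def Feasible (ends : E → Sym2 V) (r : V) (F : Finset E) : Prop :=
  ∃ U : Set V, r ∈ U ∧ (∀ e ∈ F, ∀ x ∈ ends e, x ∈ U) ∧ (∀ e ∈ F, ¬ (ends e).IsDiag) ∧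
    Set.InjOn ends (F : Set E) ∧
    ((SimpleGraph.fromEdgeSet (ends '' (F : Set E))).induce U).IsTree

open Classical in
/-- The rank of a set `A` of edges: the largest size of a feasible subset of `A`. -/
noncomputable def rk (ends : E → Sym2 V) (r : V) (A : Finset E) : ℕ :=
  (A.powerset.filter (fun F => Feasible ends r F)).sup Finset.card

/-- The Tutte polynomial of the rooted graph; `x = X 0` and `y = X 1`. -/
noncomputable def tutte [Fintype E] (ends : E → Sym2 V) (r : V) : MvPolynomial (Fin 2) ℤ :=
  ∑ A : Finset E, (MvPolynomial.X 0 - 1) ^ (rk ends r univ - rk ends r A) *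
    (MvPolynomial.X 1 - 1) ^ (A.card - rk ends r A)

open Classical in
/-- The degree of a vertex; a loop at `v` counts twice. -/
noncomputable def deg [Fintype E] (ends : E → Sym2 V) (v : V) : ℕ :=
  ∑ e : E, if ends e = s(v, v) then 2 else if v ∈ ends e then 1 else 0

open Classical in
/-- The leaves incident to the root: the vertices of degree `1` that are adjacent to `r`. -/
noncomputable def rootLeaves [Fintype V] [Fintype E] (ends : E → Sym2 V) (r : V) : Finset V :=
  univ.filter (fun v => deg ends v = 1 ∧ ∃ e, ends e = s(r, v))

open Classical in
/-- The number of edges at `v` that are not loops. -/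
noncomputable def degNL [Fintype E] (ends : E → Sym2 V) (v : V) : ℕ :=
  (univ.filter (fun e : E => v ∈ ends e ∧ ¬ (ends e).IsDiag)).card

open Classical in
/-- The leaves incident to the root after the deletion of all loops: the vertices `v ≠ r`
adjacent to `r` at which there is exactly one edge that is not a loop. -/
noncomputable def rootLeavesNL [Fintype V] [Fintype E] (ends : E → Sym2 V) (r : V) : Finset V :=
  univ.filter (fun v => v ≠ r ∧ degNL ends v = 1 ∧ ∃ e, ends e = s(r, v))

end Pool.Agent.Lib4c49
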