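import Pool.Agent.Lib_MP_4c49f5_co.Poly

set_option autoImplicit false
set_option linter.unusedSectionVars false
set_option linter.unusedVariables false
set_option maxHeartbeats 4000000

namespace Pool.Agent.Lib4c49

open Finset

variable {V E : Type*} [Fintype V] [DecidableEq V] [DecidableEq E] {a b : E → V}

/-- The other end of an edge at `w`. -/
def oth (a b : E → V) (w : V) (e : E) : V := if a e = w then b e else a e

lemma oth_joins {w : V} {e : E} (h : a e = w ∨ b e = w) : Joins a b e w (oth a b w e) := by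
  unfold oth Joins
  split_ifs with h1
  · exact Or.inl ⟨h1, rfl⟩
  · exact Or.inr ⟨rfl, h.resolve_left h1⟩

/-- The number of edges in `B` from `w` to `u`. -/
def mult (a b : E → V) (B : Finset E) (w u : V) : ℕ := (B.filter (fun e => oth a b w e = u)).card

section del

variable {R W : Finset V} {B1 B2 : Finset E} {w : V}

lemma reach_del (hwR : w ∉ R) (hB1 : ∀ e ∈ B1, a e ≠ w ∧ b e ≠ w) {A1 : Finset E} (hA1 : A1 ⊆ B1) :
    w ∉ reach a b R A1 := by
  have := reach_disjoint (a := a) (b := b) (R := R) (C := {w}) (B1 := B1)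
    (by simpa using hwR) (by simpa using hB1) hA1
  simpa using this

lemma reach_del_union (hwR : w ∉ R) (hB1 : ∀ e ∈ B1, a e ≠ w ∧ b e ≠ w)
    (hB2 : ∀ e ∈ B2, a e = w ∨ b e = w) {A1 A2 : Finset E}
    (hA1 : A1 ⊆ B1) (hA2 : A2 ⊆ B2) (h : ∀ e ∈ A2, oth a b w e ∉ reach a b R A1) :
    reach a b R (A1 ∪ A2) = reach a b R A1 := by
  have hw := reach_del hwR hB1 hA1
  apply reach_eq
  · exact subset_reach a b _ _
  · intro e he
    rcases mem_union.1 he with he | he
    · exact cl_reach a b _ _ e he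
    · have h1 := h e he
      rcases oth_joins (a := a) (b := b) (hB2 e (hA2 he)) with ⟨h2, h3⟩ | ⟨h2, h3⟩
      · rw [h2, h3]; simp [h1, hw]
      · rw [h2, h3]; simp [h1, hw]
  · exact reach_mono a b subset_rfl subset_union_left

lemma mem_reach_del_union (hwR : w ∉ R) (hB1 : ∀ e ∈ B1, a e ≠ w ∧ b e ≠ w)
    (hB2 : ∀ e ∈ B2, a e = w ∨ b e = w) {A1 A2 : Finset E}
    (hA1 : A1 ⊆ B1) (hA2 : A2 ⊆ B2) :
    w ∈ reach a b R (A1 ∪ A2) ↔ ∃ e ∈ A2, oth a b w e ∈ reach a b R A1 := by
  constructor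
  · intro h
    by_contra hcon
    push Not at hcon
    rw [reach_del_union hwR hB1 hB2 hA1 hA2 hcon] at h
    exact reach_del hwR hB1 hA1 h
  · rintro ⟨e, he, h1⟩
    have h2 : oth a b w e ∈ reach a b R (A1 ∪ A2) := reach_mono a b subset_rfl subset_union_left h1
    have h3 := cl_reach a b R (A1 ∪ A2) e (mem_union_right _ he)
    rcases oth_joins (a := a) (b := b) (hB2 e (hA2 he)) with ⟨h4, h5⟩ | ⟨h4, h5⟩
    · rw [h4, h5] at h3; exact h3.2 h2
    · rw [h4, h5] at h3; exact h3.1 h2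

/-- Deleting the vertex `w`. -/
lemma G_eq {S : Type*} [CommRing S] (y : S) (β : V → S) (hRW : Disjoint R W) (hwW : w ∈ W)
    (hBd : Disjoint B1 B2)
    (hB1 : ∀ e ∈ B1, a e ≠ w ∧ b e ≠ w)
    (hB2 : ∀ e ∈ B2, (a e = w ∨ b e = w) ∧ a e ≠ b e ∧ a e ∈ R ∪ W ∧ b e ∈ R ∪ W) :
    G a b y R W (B1 ∪ B2) w β =
      β w * F a b y R (W.erase w) B1 (fun u => y ^ mult a b B2 w u * β u) := by
  have hwR : w ∉ R := fun h => Finset.disjoint_left.1 hRW h hwW
  have hB2' : ∀ e ∈ B2, a e = w ∨ b e = w := fun e he => (hB2 e he).1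
  unfold G F
  rw [sum_powerset_union hBd, mul_sum]
  refine sum_congr rfl (fun A1 hA1 => ?_)
  rw [mem_powerset] at hA1
  have hw1 : w ∉ reach a b R A1 := reach_del hwR hB1 hA1
  have hstep : ∀ A2 ∈ B2.powerset,
      (if w ∈ reach a b R (A1 ∪ A2) then 0 else
        (∏ v ∈ W \ reach a b R (A1 ∪ A2), β v) * (y - 1) ^ (nul a b R (A1 ∪ A2))) =
      if (∀ e ∈ A2, oth a b w e ∉ reach a b R A1) then
        ((∏ v ∈ W \ reach a b R A1, β v) * (y - 1) ^ (nul a b R A1)) * (y - 1) ^ A2.card else 0 := by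
    intro A2 hA2
    rw [mem_powerset] at hA2
    by_cases hc : ∀ e ∈ A2, oth a b w e ∉ reach a b R A1
    · have hr := reach_del_union hwR hB1 hB2' hA1 hA2 hc
      have hw2 : w ∉ reach a b R (A1 ∪ A2) := by rw [hr]; exact hw1
      rw [if_neg hw2, if_pos hc, hr]
      have hnul : nul a b R (A1 ∪ A2) = nul a b R A1 + A2.card := by
        have h1 := nul_add a b R (A1 ∪ A2)
        have h2 := nul_add a b R A1
        rw [hr, card_union_of_disjoint (hBd.mono hA1 hA2)] at h1
        omega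
      rw [hnul, pow_add]; ring
    · rw [if_neg hc, if_pos]
      rw [mem_reach_del_union hwR hB1 hB2' hA1 hA2]
      push Not at hc
      exact hc
  rw [sum_congr rfl hstep, ← sum_filter]
  have hfilter : B2.powerset.filter (fun A2 => ∀ e ∈ A2, oth a b w e ∉ reach a b R A1) =
      (B2.filter (fun e => oth a b w e ∉ reach a b R A1)).powerset := by
    ext A
    simp only [mem_filter, mem_powerset]
    constructor
    · rintro ⟨h1, h2⟩ e he
      exact mem_filter.2 ⟨h1 he, h2 e he⟩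
    · intro h
      exact ⟨fun e he => (mem_filter.1 (h he)).1, fun e he => (mem_filter.1 (h he)).2⟩
  rw [hfilter, ← mul_sum, sum_pow_card]
  have hmaps : ∀ e ∈ B2.filter (fun e => oth a b w e ∉ reach a b R A1),
      oth a b w e ∈ (W.erase w) \ reach a b R A1 := by
    intro e he
    rw [mem_filter] at he
    obtain ⟨h1, h2, h3, h4⟩ := hB2 e he.1
    rw [mem_sdiff, mem_erase]
    have hR : oth a b w e ∉ R := fun h => he.2 (subset_reach a b _ _ h)
    refine ⟨⟨?_, ?_⟩, he.2⟩
    · intro h7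
      rcases oth_joins (a := a) (b := b) h1 with ⟨h5, h6⟩ | ⟨h5, h6⟩
      · exact h2 (h5.trans (h7.symm.trans h6.symm))
      · exact h2 (h5.trans (h7.trans h6.symm))
    · rcases oth_joins (a := a) (b := b) h1 with ⟨h5, h6⟩ | ⟨h5, h6⟩
      · rw [h6] at h4; exact (mem_union.1 h4).resolve_left hR
      · rw [h5] at h3; exact (mem_union.1 h3).resolve_left hR
  have hcard : (B2.filter (fun e => oth a b w e ∉ reach a b R A1)).card =
      ∑ u ∈ (W.erase w) \ reach a b R A1, mult a b B2 w u := by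
    rw [card_eq_sum_card_fiberwise hmaps]
    refine sum_congr rfl (fun u hu => ?_)
    unfold mult
    congr 1
    ext e
    simp only [mem_filter]
    constructor
    · rintro ⟨⟨h1, h2⟩, h3⟩
      exact ⟨h1, h3⟩
    · rintro ⟨h1, h3⟩
      refine ⟨⟨h1, ?_⟩, h3⟩
      rw [h3]
      exact (mem_sdiff.1 hu).2
  have hmem : w ∈ W \ reach a b R A1 := mem_sdiff.2 ⟨hwW, hw1⟩
  rw [hcard, ← prod_pow_eq_pow_sum, prod_mul_distrib, ← mul_prod_erase _ _ hmem]
  have : (W \ reach a b R A1).erase w = (W.erase w) \ reach a b R A1 := by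
    ext v; simp only [mem_erase, mem_sdiff]; tauto
  rw [this]
  ring

end del

end Pool.Agent.Lib4c49
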