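import Pool.Agent.Lib_MP_4c49f5_co.Pos

set_option autoImplicit false
set_option linter.unusedSectionVars false
set_option linter.unusedVariables false
set_option maxHeartbeats 4000000

namespace Pool.Agent.Lib4c49

open Finset

variable {V E : Type*} [Fintype V] [DecidableEq V] [DecidableEq E] (a b : E → V)

lemma sum_powerset_union {M : Type*} [AddCommMonoid M] {B1 B2 : Finset E} (h : Disjoint B1 B2)
    (f : Finset E → M) :
    ∑ A ∈ (B1 ∪ B2).powerset, f A = ∑ A1 ∈ B1.powerset, ∑ A2 ∈ B2.powerset, f (A1 ∪ A2) := by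
  induction B2 using Finset.induction_on generalizing f with
  | empty => simp
  | insert e B2 he ih =>
    rw [disjoint_insert_right] at h
    have he1 : e ∉ B1 ∪ B2 := by simp [h.1, he]
    rw [union_insert, sum_powerset_insert he1, ih h.2, ih h.2 (fun A => f (insert e A)),
      ← sum_add_distrib]
    refine sum_congr rfl (fun A1 _ => ?_)
    rw [sum_powerset_insert he]
    simp only [union_insert]

/-- The nullity. -/
noncomputable def nul (R : Finset V) (A : Finset E) : ℕ :=
  A.card - (reach a b R A \ R).card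

lemma nul_add (R : Finset V) (A : Finset E) :
    nul a b R A + (reach a b R A \ R).card = A.card :=
  Nat.sub_add_cancel (card_reach_le a b R A)

/-- The weighted sum, over a commutative ring `S` with a chosen element `y`. -/
noncomputable def F {S : Type*} [CommRing S] (y : S) (R W : Finset V) (B : Finset E) (β : V → S) : S :=
  ∑ A ∈ B.powerset, (∏ v ∈ W \ reach a b R A, β v) * (y - 1) ^ (nul a b R A)

lemma sum_pow_card {S : Type*} [CommRing S] (y : S) (B : Finset E) :
    ∑ A ∈ B.powerset, (y - 1) ^ A.card = y ^ B.card := by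
  have := Finset.sum_pow_mul_eq_add_pow (y - 1) 1 B
  simpa using this

section gluing

variable {a b}
variable {R C W : Finset V} {B1 B2 : Finset E} {w : V}

/-- No vertex of `C` is reached from outside through edges that do not touch `C`. -/
lemma reach_disjoint (hRC : Disjoint R C) (hB1 : ∀ e ∈ B1, a e ∉ C ∧ b e ∉ C) {A1 : Finset E}
    (hA1 : A1 ⊆ B1) : Disjoint (reach a b R A1) C := by
  have : reach a b R A1 ⊆ univ \ C := by
    apply reach_min
    · intro v hv
      rw [mem_sdiff]
      exact ⟨mem_univ _, Finset.disjoint_left.1 hRC hv⟩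
    · intro e he
      have := hB1 e (hA1 he)
      simp [this.1, this.2]
  rw [Finset.disjoint_left]
  intro v hv hvC
  exact (mem_sdiff.1 (this hv)).2 hvC

lemma reach_union_of_notMem (hRC : Disjoint R C) (hB1 : ∀ e ∈ B1, a e ∉ C ∧ b e ∉ C)
    (hB2 : ∀ e ∈ B2, a e ∈ insert w C ∧ b e ∈ insert w C) {A1 A2 : Finset E}
    (hA1 : A1 ⊆ B1) (hA2 : A2 ⊆ B2) (hw : w ∉ reach a b R A1) :
    reach a b R (A1 ∪ A2) = reach a b R A1 := by
  have hd := reach_disjoint hRC hB1 hA1
  apply reach_eq
  · exact subset_reach a b _ _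
  · intro e he
    rcases mem_union.1 he with he | he
    · exact cl_reach a b _ _ e he
    · have h1 := hB2 e (hA2 he)
      have h2 : ∀ v ∈ insert w C, v ∉ reach a b R A1 := by
        intro v hv hv'
        rcases mem_insert.1 hv with rfl | hv
        · exact hw hv'
        · exact Finset.disjoint_left.1 hd hv' hv
      simp [h2 _ h1.1, h2 _ h1.2]
  · exact reach_mono a b subset_rfl subset_union_left

lemma reach_singleton_subset (hB2 : ∀ e ∈ B2, a e ∈ insert w C ∧ b e ∈ insert w C) {A2 : Finset E}
    (hA2 : A2 ⊆ B2) : reach a b {w} A2 ⊆ insert w C := by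
  apply reach_min
  · simp
  · intro e he
    have := hB2 e (hA2 he)
    simp [this.1, this.2]

lemma reach_union_of_mem (hRC : Disjoint R C) (hwC : w ∉ C) (hB1 : ∀ e ∈ B1, a e ∉ C ∧ b e ∉ C)
    (hB2 : ∀ e ∈ B2, a e ∈ insert w C ∧ b e ∈ insert w C) {A1 A2 : Finset E}
    (hA1 : A1 ⊆ B1) (hA2 : A2 ⊆ B2) (hw : w ∈ reach a b R A1) :
    reach a b R (A1 ∪ A2) = reach a b R A1 ∪ reach a b {w} A2 := by
  have hd := reach_disjoint hRC hB1 hA1
  have hs := reach_singleton_subset (a := a) (b := b) hB2 hA2
  have hw2 : w ∈ reach a b {w} A2 := subset_reach a b _ _ (mem_singleton_self w)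
  apply reach_eq
  · exact (subset_reach a b _ _).trans subset_union_left
  · intro e he
    rw [mem_union, mem_union]
    rcases mem_union.1 he with he | he
    · have h1 := cl_reach a b R A1 e he
      have h2 := hB1 e (hA1 he)
      have h3 : ∀ v, v ∉ C → v ∈ reach a b {w} A2 → v ∈ reach a b R A1 := by
        intro v hv hv'
        rcases mem_insert.1 (hs hv') with rfl | h
        · exact hw
        · exact absurd h hv
      constructor
      · rintro (h | h)
        · exact Or.inl (h1.1 h)
        · exact Or.inl (h1.1 (h3 _ h2.1 h))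
      · rintro (h | h)
        · exact Or.inl (h1.2 h)
        · exact Or.inl (h1.2 (h3 _ h2.2 h))
    · have h1 := cl_reach a b {w} A2 e he
      have h2 := hB2 e (hA2 he)
      have h3 : ∀ v, v ∈ insert w C → v ∈ reach a b R A1 → v ∈ reach a b {w} A2 := by
        intro v hv hv'
        rcases mem_insert.1 hv with rfl | h
        · exact hw2
        · exact absurd h (Finset.disjoint_left.1 hd hv')
      constructor
      · rintro (h | h)
        · exact Or.inr (h1.1 (h3 _ h2.1 h))
        · exact Or.inr (h1.1 h)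
      · rintro (h | h)
        · exact Or.inr (h1.2 (h3 _ h2.2 h))
        · exact Or.inr (h1.2 h)
  · apply union_subset
    · exact reach_mono a b subset_rfl subset_union_left
    · apply reach_min
      · rw [singleton_subset_iff]
        exact reach_mono a b subset_rfl subset_union_left hw
      · exact (cl_reach a b R (A1 ∪ A2)).mono a b subset_union_right

lemma gluing {S : Type*} [CommRing S] (y : S) (β : V → S) (hRC : Disjoint R C) (hwC : w ∉ C)
    (hCW : C ⊆ W) (hBd : Disjoint B1 B2)
    (hB1 : ∀ e ∈ B1, a e ∉ C ∧ b e ∉ C)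
    (hB2 : ∀ e ∈ B2, a e ∈ insert w C ∧ b e ∈ insert w C) :
    F a b y R W (B1 ∪ B2) β = ∑ A ∈ B1.powerset,
      ((∏ v ∈ (W \ C) \ reach a b R A, β v) * (y - 1) ^ (nul a b R A)) *
        (if w ∈ reach a b R A then F a b y {w} C B2 β else (∏ v ∈ C, β v) * y ^ B2.card) := by
  unfold F
  rw [sum_powerset_union hBd]
  refine sum_congr rfl (fun A1 hA1 => ?_)
  rw [mem_powerset] at hA1
  have hd := reach_disjoint hRC hB1 hA1
  have hdd : ∀ A2 ⊆ B2, (A1 ∪ A2).card = A1.card + A2.card := fun A2 hA2 =>
    card_union_of_disjoint (hBd.mono hA1 hA2)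
  split_ifs with hw
  · rw [mul_sum]
    refine sum_congr rfl (fun A2 hA2 => ?_)
    rw [mem_powerset] at hA2
    have hr := reach_union_of_mem hRC hwC hB1 hB2 hA1 hA2 hw
    have hs := reach_singleton_subset (a := a) (b := b) hB2 hA2
    -- the product
    have hprod : (∏ v ∈ W \ reach a b R (A1 ∪ A2), β v) =
        (∏ v ∈ (W \ C) \ reach a b R A1, β v) * ∏ v ∈ C \ reach a b {w} A2, β v := by
      have hdis : Disjoint ((W \ C) \ reach a b R A1) (C \ reach a b {w} A2) := by
        rw [Finset.disjoint_left]
        intro v hv hv'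
        simp only [mem_sdiff] at hv hv'
        exact hv.1.2 hv'.1
      rw [← prod_union hdis]
      congr 1
      rw [hr]
      ext v
      simp only [mem_sdiff, mem_union]
      have h1 : v ∈ C → v ∉ reach a b R A1 := fun h h' => Finset.disjoint_left.1 hd h' h
      have h2 : v ∈ reach a b {w} A2 → v ∈ C ∨ v ∈ reach a b R A1 := by
        intro h
        rcases mem_insert.1 (hs h) with rfl | h'
        · exact Or.inr hw
        · exact Or.inl h'
      have h3 : v ∈ C → v ∈ W := fun h => hCW h
      (first | grind | tauto)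
    have hnul : nul a b R (A1 ∪ A2) = nul a b R A1 + nul a b {w} A2 := by
      have hc : (reach a b R (A1 ∪ A2) \ R).card =
          (reach a b R A1 \ R).card + (reach a b {w} A2 \ {w}).card := by
        rw [← card_union_of_disjoint]
        · congr 1
          rw [hr]
          ext v
          simp only [mem_sdiff, mem_union, mem_singleton]
          have h1 : v ∈ C → v ∉ reach a b R A1 := fun h h' => Finset.disjoint_left.1 hd h' h
          have h2 : v ∈ reach a b {w} A2 → v ∈ C ∨ v = w := by
            intro h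
            rcases mem_insert.1 (hs h) with rfl | h'
            · exact Or.inr rfl
            · exact Or.inl h'
          have h3 : v ∈ R → v ∉ C := fun h h' => Finset.disjoint_left.1 hRC h h'
          have h4 : v = w → v ∈ reach a b R A1 := fun h => h ▸ hw
          have h5 : v = w → v ∉ C := fun h => h ▸ hwC
          (first | grind | tauto)
        · rw [Finset.disjoint_left]
          intro v hv hv'
          simp only [mem_sdiff, mem_singleton] at hv hv'
          rcases mem_insert.1 (hs hv'.1) with h | h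
          · exact hv'.2 h
          · exact Finset.disjoint_left.1 hd hv.1 h
      have h1 := nul_add a b R (A1 ∪ A2)
      have h2 := nul_add a b R A1
      have h3 := nul_add a b {w} A2
      rw [hc, hdd A2 hA2] at h1
      omega
    rw [hprod, hnul, pow_add]
    ring
  · have : ∀ A2 ∈ B2.powerset, (∏ v ∈ W \ reach a b R (A1 ∪ A2), β v) *
        (y - 1) ^ nul a b R (A1 ∪ A2) =
        ((∏ v ∈ (W \ C) \ reach a b R A1, β v) * (y - 1) ^ nul a b R A1 * ∏ v ∈ C, β v) *
        (y - 1) ^ A2.card := by
      intro A2 hA2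
      rw [mem_powerset] at hA2
      have hr := reach_union_of_notMem hRC hB1 hB2 hA1 hA2 hw
      have hprod : (∏ v ∈ W \ reach a b R (A1 ∪ A2), β v) =
          (∏ v ∈ (W \ C) \ reach a b R A1, β v) * ∏ v ∈ C, β v := by
        have hdis : Disjoint ((W \ C) \ reach a b R A1) C := by
          rw [Finset.disjoint_left]
          intro v hv hv'
          simp only [mem_sdiff] at hv hv'
          exact hv.1.2 hv'
        rw [← prod_union hdis]
        congr 1
        rw [hr]
        ext v
        simp only [mem_sdiff, mem_union]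
        have h1 : v ∈ C → v ∉ reach a b R A1 := fun h h' => Finset.disjoint_left.1 hd h' h
        have h3 : v ∈ C → v ∈ W := fun h => hCW h
        (first | grind | tauto)
      have hnul : nul a b R (A1 ∪ A2) = nul a b R A1 + A2.card := by
        have h1 := nul_add a b R (A1 ∪ A2)
        have h2 := nul_add a b R A1
        rw [hr, hdd A2 hA2] at h1
        omega
      rw [hprod, hnul, pow_add]
      ring
    rw [sum_congr rfl this, ← mul_sum, sum_pow_card]
    ring

/-- Gluing at a root vertex: a product. -/
lemma gluing_root {S : Type*} [CommRing S] (y : S) (β : V → S) (hRC : Disjoint R C) (hwR : w ∈ R)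
    (hCW : C ⊆ W) (hBd : Disjoint B1 B2)
    (hB1 : ∀ e ∈ B1, a e ∉ C ∧ b e ∉ C)
    (hB2 : ∀ e ∈ B2, a e ∈ insert w C ∧ b e ∈ insert w C) :
    F a b y R W (B1 ∪ B2) β = F a b y R (W \ C) B1 β * F a b y {w} C B2 β := by
  have hwC : w ∉ C := Finset.disjoint_left.1 hRC hwR
  rw [gluing y β hRC hwC hCW hBd hB1 hB2]
  unfold F
  rw [sum_mul]
  refine sum_congr rfl (fun A1 _ => ?_)
  rw [if_pos (subset_reach a b _ _ hwR)]

/-- The part of the sum in which `w` is not reached. -/
noncomputable def G {S : Type*} [CommRing S] (a b : E → V) (y : S) (R W : Finset V) (B : Finset E)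
    (w : V) (β : V → S) : S :=
  ∑ A ∈ B.powerset, if w ∈ reach a b R A then 0 else
    (∏ v ∈ W \ reach a b R A, β v) * (y - 1) ^ (nul a b R A)

/-- Changing the weight of `w`: if `P * q = c * β w` then the sum for the new weights
is a multiple of ... -/
lemma gluing_mul {S : Type*} [CommRing S] (y : S) (β : V → S) (hRC : Disjoint R C) (hwC : w ∉ C)
    (hCW : C ⊆ W) (hwW : w ∈ W) (hBd : Disjoint B1 B2)
    (hB1 : ∀ e ∈ B1, a e ∉ C ∧ b e ∉ C)
    (hB2 : ∀ e ∈ B2, a e ∈ insert w C ∧ b e ∈ insert w C) (t : S)
    (ht : F a b y {w} C B2 β * t = β w * ((∏ v ∈ C, β v) * y ^ B2.card)) :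
    F a b y R W (B1 ∪ B2) β = F a b y {w} C B2 β * F a b y R (W \ C) B1 (Function.update β w t) := by
  rw [gluing y β hRC hwC hCW hBd hB1 hB2]
  rw [show F a b y R (W \ C) B1 (Function.update β w t) = ∑ A ∈ B1.powerset,
    (∏ v ∈ (W \ C) \ reach a b R A, Function.update β w t v) * (y - 1) ^ (nul a b R A) from rfl,
    mul_sum]
  refine sum_congr rfl (fun A1 _ => ?_)
  split_ifs with hw
  · have : ∏ v ∈ (W \ C) \ reach a b R A1, Function.update β w t v =
        ∏ v ∈ (W \ C) \ reach a b R A1, β v := by
      refine prod_congr rfl (fun v hv => ?_)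
      rw [Function.update_of_ne]
      rintro rfl
      exact (mem_sdiff.1 hv).2 hw
    rw [this]
    ring
  · have hmem : w ∈ (W \ C) \ reach a b R A1 := by simp [hwW, hwC, hw]
    rw [← mul_prod_erase _ _ hmem, ← mul_prod_erase _ _ hmem, Function.update_self]
    have : ∏ v ∈ ((W \ C) \ reach a b R A1).erase w, Function.update β w t v =
        ∏ v ∈ ((W \ C) \ reach a b R A1).erase w, β v := by
      refine prod_congr rfl (fun v hv => ?_)
      rw [Function.update_of_ne]
      exact (mem_erase.1 hv).1
    rw [this]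
    linear_combination (- (∏ v ∈ ((W \ C) \ reach a b R A1).erase w, β v) *
      (y - 1) ^ nul a b R A1) * ht

lemma gluing_zero {S : Type*} [CommRing S] (y : S) (β : V → S) (hRC : Disjoint R C) (hwC : w ∉ C)
    (hCW : C ⊆ W) (hBd : Disjoint B1 B2)
    (hB1 : ∀ e ∈ B1, a e ∉ C ∧ b e ∉ C)
    (hB2 : ∀ e ∈ B2, a e ∈ insert w C ∧ b e ∈ insert w C)
    (hP : F a b y {w} C B2 β = 0) :
    F a b y R W (B1 ∪ B2) β = G a b y R (W \ C) B1 w β * ((∏ v ∈ C, β v) * y ^ B2.card) := by
  rw [gluing y β hRC hwC hCW hBd hB1 hB2, G, sum_mul]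
  refine sum_congr rfl (fun A1 _ => ?_)
  rw [hP]
  split_ifs with hw
  · ring
  · ring

end gluing

end Pool.Agent.Lib4c49
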