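import Pool.Agent.Lib_MP_4c49f5_co.Reach

set_option autoImplicit false
set_option linter.unusedSectionVars false
set_option linter.unusedVariables false
set_option maxHeartbeats 2000000

namespace Pool.Agent.Lib4c49

open Finset

variable {V E : Type*} [Fintype V] [DecidableEq V] [DecidableEq E] (a b : E → V)

/-- All edges of `B` that touch `C` have both ends in `S`. -/
def Within (B : Finset E) (C S : Finset V) : Prop :=
  ∀ e ∈ B, (a e ∈ C ∨ b e ∈ C) → (a e ∈ S ∧ b e ∈ S)

/-- The hypotheses under which the signed domination is nonzero. -/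
structure Hyp (R W : Finset V) (B : Finset E) (K : Finset V) : Prop where
  disj : Disjoint R W
  sub : K ⊆ W
  ends : ∀ e ∈ B, a e ∈ R ∪ W ∧ b e ∈ R ∪ W
  noloop : ∀ e ∈ B, a e ≠ b e
  noR : ∀ e ∈ B, ¬ (a e ∈ R ∧ b e ∈ R)
  conn : ∀ C ⊆ W, C.Nonempty → ¬ Cl a b B C
  star1 : ∀ C ⊆ W, C.Nonempty → Disjoint C K → ¬ Within a b B C (C ∪ R)
  star2 : ∀ C ⊆ W, C.Nonempty → Disjoint C K → ∀ w ∈ W, w ∉ C → ¬ Within a b B C (insert w C)

lemma Within.mono {B B' : Finset E} {C S : Finset V} (h : Within a b B' C S) (hB : B ⊆ B') :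
    Within a b B C S := fun e he => h e (hB he)

variable {a b}

lemma exists_of_not_within {B : Finset E} {C S : Finset V} (h : ¬ Within a b B C S) :
    ∃ e ∈ B, (a e ∈ C ∨ b e ∈ C) ∧ ¬ (a e ∈ S ∧ b e ∈ S) := by
  unfold Within at h
  push Not at h
  obtain ⟨e, he, h1, h2⟩ := h
  exact ⟨e, he, h1, fun h3 => h2 h3.1 h3.2⟩

lemma within_of_joins {B : Finset E} {C S : Finset V} (hCS : C ⊆ S)
    (h : ∀ e ∈ B, ∀ x y, Joins a b e x y → x ∈ C → y ∈ S) : Within a b B C S := by
  intro e he h1
  rcases h1 with h1 | h1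
  · exact ⟨hCS h1, h e he _ _ (Or.inl ⟨rfl, rfl⟩) h1⟩
  · exact ⟨h e he _ _ (Or.inr ⟨rfl, rfl⟩) h1, hCS h1⟩

lemma Within.nbr {B : Finset E} {C S : Finset V} (h : Within a b B C S) {e : E} (he : e ∈ B)
    {x y : V} (hj : Joins a b e x y) (hx : x ∈ C) : y ∈ S := by
  rcases hj with ⟨rfl, rfl⟩ | ⟨rfl, rfl⟩
  · exact (h e he (Or.inl hx)).2
  · exact (h e he (Or.inr hx)).1

lemma Joins.symm {e : E} {x y : V} (h : Joins a b e x y) : Joins a b e y x := by
  unfold Joins at *; (first | grind | tauto)

lemma exists_of_not_cl {B : Finset E} {C : Finset V} (h : ¬ Cl a b B C) :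
    ∃ e ∈ B, ¬ (a e ∈ C ↔ b e ∈ C) := by
  unfold Cl at h
  push Not at h
  obtain ⟨e, he, h1⟩ := h
  exact ⟨e, he, by (first | grind | tauto)⟩

/-- Deleting one of two parallel edges from `R` to `u`. -/
lemma Hyp.parallel {R W K : Finset V} {B : Finset E} (h : Hyp a b R W B K) {e e' : E} {x x' u : V}
    (he : e ∈ B) (hj : Joins a b e x u) (hx : x ∈ R) (hu : u ∈ W)
    (he' : e' ∈ B.erase e) (hj' : Joins a b e' x' u) (hx' : x' ∈ R) :
    Hyp a b R W (B.erase e) K := by
  have hRW : ∀ v, v ∈ R → v ∉ W := fun v hv hw => (Finset.disjoint_left.1 h.disj) hv hw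
  refine ⟨h.disj, h.sub, fun f hf => h.ends f (mem_of_mem_erase hf),
    fun f hf => h.noloop f (mem_of_mem_erase hf), fun f hf => h.noR f (mem_of_mem_erase hf), ?_, ?_, ?_⟩
  · intro C hC hne hcl
    obtain ⟨f, hf, hf2⟩ := exists_of_not_cl (h.conn C hC hne)
    by_cases hfe : f = e
    · subst hfe
      have h1 := hcl e' he'
      have hxC : x ∉ C := fun h' => hRW x hx (hC h')
      have hxC' : x' ∉ C := fun h' => hRW x' hx' (hC h')
      rcases hj with ⟨h2, h3⟩ | ⟨h2, h3⟩ <;> rcases hj' with ⟨h4, h5⟩ | ⟨h4, h5⟩ <;>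
        rw [h2, h3] at hf2 <;> rw [h4, h5] at h1 <;> (first | grind | tauto)
    · exact hf2 (hcl f (mem_erase.2 ⟨hfe, hf⟩))
  · intro C hC hne hK hw
    obtain ⟨f, hf, hf1, hf2⟩ := exists_of_not_within (h.star1 C hC hne hK)
    by_cases hfe : f = e
    · subst hfe
      have hxC : x ∉ C := fun h' => hRW x hx (hC h')
      apply hf2
      simp only [mem_union]
      rcases hj with ⟨h2, h3⟩ | ⟨h2, h3⟩ <;> rw [h2, h3] at hf1 ⊢ <;> (first | grind | tauto)
    · exact hf2 (hw f (mem_erase.2 ⟨hfe, hf⟩) hf1)
  · intro C hC hne hK w hwW hwC hw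
    obtain ⟨f, hf, hf1, hf2⟩ := exists_of_not_within (h.star2 C hC hne hK w hwW hwC)
    by_cases hfe : f = e
    · subst hfe
      have hxC : x ∉ C := fun h' => hRW x hx (hC h')
      have hxC' : x' ∉ C := fun h' => hRW x' hx' (hC h')
      have hxw : x' ≠ w := fun h' => hRW x' hx' (h' ▸ hwW)
      have h1 := hw e' he'
      simp only [mem_insert] at h1
      rcases hj with ⟨h2, h3⟩ | ⟨h2, h3⟩ <;> rcases hj' with ⟨h4, h5⟩ | ⟨h4, h5⟩ <;>
        rw [h2, h3] at hf1 <;> rw [h4, h5] at h1 <;> (first | grind | tauto)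
    · exact hf2 (hw f (mem_erase.2 ⟨hfe, hf⟩) hf1)

/-- Contracting the edge. -/
lemma Hyp.contract {R W K : Finset V} {B : Finset E} (h : Hyp a b R W B K) {e : E} {x u : V}
    (he : e ∈ B) (hj : Joins a b e x u) (hx : x ∈ R) (hu : u ∈ W)
    (hpar : ∀ e' ∈ B.erase e, ∀ x' ∈ R, ¬ Joins a b e' x' u)
    (hgood : ∀ C ⊆ W.erase u, C.Nonempty → Disjoint C K →
      ¬ Within a b (B.erase e) C (C ∪ insert u R)) :
    Hyp a b (insert u R) (W.erase u) (B.erase e) (K.erase u) := by
  have hRW : ∀ v, v ∈ R → v ∉ W := fun v hv hw => (Finset.disjoint_left.1 h.disj) hv hw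
  have hdK : ∀ C ⊆ W.erase u, Disjoint C (K.erase u) → Disjoint C K := by
    intro C hC hd
    rw [Finset.disjoint_left] at hd ⊢
    intro v hv hvK
    exact hd hv (mem_erase.2 ⟨(mem_erase.1 (hC hv)).1, hvK⟩)
  refine ⟨?_, ?_, ?_, fun f hf => h.noloop f (mem_of_mem_erase hf), ?_, ?_, ?_, ?_⟩
  · rw [Finset.disjoint_left]
    intro v hv hv'
    rcases mem_insert.1 hv with rfl | hv
    · exact (mem_erase.1 hv').1 rfl
    · exact hRW v hv (mem_of_mem_erase hv')
  · exact erase_subset_erase _ h.sub
  · intro f hf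
    have := h.ends f (mem_of_mem_erase hf)
    simp only [mem_union, mem_insert, mem_erase] at this ⊢
    constructor
    · by_cases h' : a f = u <;> (first | grind | tauto)
    · by_cases h' : b f = u <;> (first | grind | tauto)
  · intro f hf hf2
    have h1 := h.noR f (mem_of_mem_erase hf)
    have h2 := h.noloop f (mem_of_mem_erase hf)
    have h3 := hpar f hf
    simp only [mem_insert] at hf2
    rcases hf2 with ⟨h4 | h4, h5 | h5⟩
    · exact h2 (h4.trans h5.symm)
    · exact h3 _ h5 (Or.inr ⟨h4, rfl⟩)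
    · exact h3 _ h4 (Or.inl ⟨rfl, h5⟩)
    · exact h1 ⟨h4, h5⟩
  · intro C hC hne hcl
    obtain ⟨f, hf, hf2⟩ := exists_of_not_cl (h.conn C (hC.trans (erase_subset _ _)) hne)
    by_cases hfe : f = e
    · subst hfe
      have hxC : x ∉ C := fun h' => hRW x hx (mem_of_mem_erase (hC h'))
      have huC : u ∉ C := fun h' => (mem_erase.1 (hC h')).1 rfl
      rcases hj with ⟨h2, h3⟩ | ⟨h2, h3⟩ <;> rw [h2, h3] at hf2 <;> (first | grind | tauto)
    · exact hf2 (hcl f (mem_erase.2 ⟨hfe, hf⟩))
  · intro C hC hne hK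
    exact hgood C hC hne (hdK C hC hK)
  · intro C hC hne hK w hwW hwC hw
    obtain ⟨f, hf, hf1, hf2⟩ := exists_of_not_within (h.star2 C (hC.trans (erase_subset _ _)) hne
      (hdK C hC hK) w (mem_of_mem_erase hwW) hwC)
    by_cases hfe : f = e
    · subst hfe
      have hxC : x ∉ C := fun h' => hRW x hx (mem_of_mem_erase (hC h'))
      have huC : u ∉ C := fun h' => (mem_erase.1 (hC h')).1 rfl
      rcases hj with ⟨h2, h3⟩ | ⟨h2, h3⟩ <;> rw [h2, h3] at hf1 <;> (first | grind | tauto)
    · exact hf2 (hw f (mem_erase.2 ⟨hfe, hf⟩) hf1)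

/-- Deleting the edge. -/
lemma Hyp.delete {R W K : Finset V} {B : Finset E} (h : Hyp a b R W B K) {e : E} {x u : V}
    (he : e ∈ B) (hj : Joins a b e x u) (hx : x ∈ R) (hu : u ∈ W)
    {C : Finset V} (hC : C ⊆ W.erase u) (hne : C.Nonempty) (hCK : Disjoint C K)
    (hbad : Within a b (B.erase e) C (C ∪ insert u R)) :
    Hyp a b R W (B.erase e) K := by
  have hRW : ∀ v, v ∈ R → v ∉ W := fun v hv hw => (Finset.disjoint_left.1 h.disj) hv hw
  have hCW : C ⊆ W := hC.trans (erase_subset _ _)
  have huC : u ∉ C := fun h' => (mem_erase.1 (hC h')).1 rfl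
  have hCR : ∀ v ∈ C, v ∉ R := fun v hv hv' => hRW v hv' (hCW hv)
  have huR : u ∉ R := fun h' => hRW u h' hu
  have hbad' : Within a b B C (C ∪ insert u R) := by
    intro f hf hf1
    by_cases hfe : f = e
    · subst hfe
      have hxC : x ∉ C := fun h' => hCR x h' hx
      rcases hj with ⟨h2, h3⟩ | ⟨h2, h3⟩ <;> rw [h2, h3] at hf1 <;> (first | grind | tauto)
    · exact hbad f (mem_erase.2 ⟨hfe, hf⟩) hf1
  refine ⟨h.disj, h.sub, fun f hf => h.ends f (mem_of_mem_erase hf),
    fun f hf => h.noloop f (mem_of_mem_erase hf), fun f hf => h.noR f (mem_of_mem_erase hf), ?_, ?_, ?_⟩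
  · intro C2 hC2 hne2 hcl
    have hC2R : ∀ v ∈ C2, v ∉ R := fun v hv hv' => hRW v hv' (hC2 hv)
    -- `u ∈ C2`
    have hu2 : u ∈ C2 := by
      obtain ⟨f, hf, hf2⟩ := exists_of_not_cl (h.conn C2 hC2 hne2)
      by_cases hfe : f = e
      · subst hfe
        have hxC : x ∉ C2 := fun h' => hC2R x h' hx
        rcases hj with ⟨h2, h3⟩ | ⟨h2, h3⟩ <;> rw [h2, h3] at hf2 <;> (first | grind | tauto)
      · exact absurd (hcl f (mem_erase.2 ⟨hfe, hf⟩)) hf2
    -- `C ⊆ C2`
    have hsub : C ⊆ C2 := by
      rw [← Finset.sdiff_eq_empty_iff_subset, ← Finset.not_nonempty_iff_eq_empty]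
      intro hne3
      apply h.star1 (C \ C2) (sdiff_subset.trans hCW) hne3
        (hCK.mono_left sdiff_subset)
      intro f hf hf1
      have h1 := hbad' f hf (by simp only [mem_sdiff] at hf1; (first | grind | tauto))
      have h2 : a f ∈ C2 ↔ b f ∈ C2 := by
        by_cases hfe : f = e
        · subst hfe
          exfalso
          have hxC : x ∉ C := fun h' => hCR x h' hx
          simp only [mem_sdiff] at hf1
          rcases hj with ⟨h2, h3⟩ | ⟨h2, h3⟩ <;> rw [h2, h3] at hf1 <;> (first | grind | tauto)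
        · exact hcl f (mem_erase.2 ⟨hfe, hf⟩)
      simp only [mem_union, mem_insert, mem_sdiff] at h1 hf1 ⊢
      have h3 : a f = u → a f ∈ C2 := fun h' => h' ▸ hu2
      have h4 : b f = u → b f ∈ C2 := fun h' => h' ▸ hu2
      (first | grind | tauto)
    apply h.star2 C hCW hne hCK u hu huC
    intro f hf hf1
    have h1 := hbad' f hf hf1
    have h2 : a f ∈ C2 ↔ b f ∈ C2 := by
      by_cases hfe : f = e
      · subst hfe
        exfalso
        have hxC : x ∉ C := fun h' => hCR x h' hx
        rcases hj with ⟨h2, h3⟩ | ⟨h2, h3⟩ <;> rw [h2, h3] at hf1 <;> (first | grind | tauto)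
      · exact hcl f (mem_erase.2 ⟨hfe, hf⟩)
    have h3 : a f ∈ C → a f ∈ C2 := fun h' => hsub h'
    have h4 : b f ∈ C → b f ∈ C2 := fun h' => hsub h'
    have h5 : a f ∈ C2 → a f ∉ R := hC2R _
    have h6 : b f ∈ C2 → b f ∉ R := hC2R _
    simp only [mem_union, mem_insert] at h1 ⊢
    (first | grind | tauto)
  · intro C2 hC2 hne2 hK2 hw
    apply h.star1 C2 hC2 hne2 hK2
    intro f hf hf1
    by_cases hfe : f = e
    · subst hfe
      have hxC : x ∉ C2 := fun h' => hRW x hx (hC2 h')
      simp only [mem_union]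
      rcases hj with ⟨h2, h3⟩ | ⟨h2, h3⟩ <;> rw [h2, h3] at hf1 ⊢ <;> (first | grind | tauto)
    · exact hw f (mem_erase.2 ⟨hfe, hf⟩) hf1
  · intro C2 hC2 hne2 hK2 w hwW hwC hw
    have hC2R : ∀ v ∈ C2, v ∉ R := fun v hv hv' => hRW v hv' (hC2 hv)
    have hwR : w ∉ R := fun h' => hRW w h' hwW
    -- `u ∈ C2`
    have hu2 : u ∈ C2 := by
      by_contra hu2
      apply h.star2 C2 hC2 hne2 hK2 w hwW hwC
      intro f hf hf1
      by_cases hfe : f = e
      · subst hfe
        exfalso
        have hxC : x ∉ C2 := fun h' => hC2R x h' hx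
        rcases hj with ⟨h2, h3⟩ | ⟨h2, h3⟩ <;> rw [h2, h3] at hf1 <;> (first | grind | tauto)
      · exact hw f (mem_erase.2 ⟨hfe, hf⟩) hf1
    have huw : u ≠ w := fun h' => hwC (h' ▸ hu2)
    by_cases hwC' : w ∈ C
    · -- `Y = C ∪ C2`
      apply h.star1 (C ∪ C2) (union_subset hCW hC2) (hne.mono subset_union_left)
        (disjoint_union_left.2 ⟨hCK, hK2⟩)
      intro f hf hf1
      simp only [mem_union] at hf1 ⊢
      by_cases hf3 : a f ∈ C ∨ b f ∈ C
      · have h1 := hbad' f hf hf3
        have h3 : a f = u → a f ∈ C2 := fun h' => h' ▸ hu2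
        have h4 : b f = u → b f ∈ C2 := fun h' => h' ▸ hu2
        simp only [mem_union, mem_insert] at h1
        (first | grind | tauto)
      · have hf4 : a f ∈ C2 ∨ b f ∈ C2 := by (first | grind | tauto)
        by_cases hfe : f = e
        · subst hfe
          rcases hj with ⟨h2, h3⟩ | ⟨h2, h3⟩ <;> rw [h2, h3] at hf4 ⊢ <;> (first | grind | tauto)
        · have h1 := hw f (mem_erase.2 ⟨hfe, hf⟩) hf4
          have h3 : a f = w → a f ∈ C := fun h' => h' ▸ hwC'
          have h4 : b f = w → b f ∈ C := fun h' => h' ▸ hwC'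
          simp only [mem_insert] at h1
          (first | grind | tauto)
    · have hfe : ∀ f x' y, Joins a b f x' y → x' ∈ C → f ≠ e := by
        rintro f x' y hj' hx' rfl
        have hxC : x ∉ C := fun h' => hCR x h' hx
        rcases hj with ⟨h2, h3⟩ | ⟨h2, h3⟩ <;> rcases hj' with ⟨h4, h5⟩ | ⟨h4, h5⟩ <;>
          simp_all
      have hsub : C ⊆ C2 := by
        rw [← Finset.sdiff_eq_empty_iff_subset, ← Finset.not_nonempty_iff_eq_empty]
        intro hne3
        apply h.star1 (C \ C2) (sdiff_subset.trans hCW) hne3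
          (hCK.mono_left sdiff_subset)
        apply within_of_joins subset_union_left
        intro f hf x' y hj' hx'
        rw [mem_sdiff] at hx'
        have h1 := hbad'.nbr hf hj' hx'.1
        have hf' := mem_erase.2 ⟨hfe f x' y hj' hx'.1, hf⟩
        have hyC2 : y ∉ C2 := by
          intro hy
          have h2 := hw.nbr hf' hj'.symm hy
          rcases mem_insert.1 h2 with h3 | h3
          · exact hwC' (h3 ▸ hx'.1)
          · exact hx'.2 h3
        rw [mem_union, mem_sdiff]
        rcases mem_union.1 h1 with h2 | h2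
        · exact Or.inl ⟨h2, hyC2⟩
        · rcases mem_insert.1 h2 with h3 | h3
          · exact absurd (h3 ▸ hu2) hyC2
          · exact Or.inr h3
      apply h.star2 C hCW hne hCK u hu huC
      apply within_of_joins (subset_insert _ _)
      intro f hf x' y hj' hx'
      have h1 := hbad'.nbr hf hj' hx'
      have hf' := mem_erase.2 ⟨hfe f x' y hj' hx', hf⟩
      have h2 := hw.nbr hf' hj' (hsub hx')
      rw [mem_insert]
      rcases mem_union.1 h1 with h3 | h3
      · exact Or.inr h3
      · rcases mem_insert.1 h3 with h4 | h4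
        · exact Or.inl h4
        · exfalso
          rcases mem_insert.1 h2 with h5 | h5
          · exact hwR (h5 ▸ h4)
          · exact hC2R y h5 h4

lemma Hyp.U_eq {R W K : Finset V} {B : Finset E} (h : Hyp a b R W B K) : U a b R B K = W := by
  have hRW : ∀ v, v ∈ R → v ∉ W := fun v hv hw => (Finset.disjoint_left.1 h.disj) hv hw
  ext v
  rw [mem_U]
  constructor
  · rintro ⟨h1, h2 | ⟨f, hf, h2⟩⟩
    · exact h.sub h2
    · have := h.ends f hf
      simp only [mem_union] at this
      rcases h2 with rfl | rfl <;> (first | grind | tauto)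
  · intro hv
    refine ⟨fun h' => hRW v h' hv, Or.inr ?_⟩
    obtain ⟨f, hf, hf2⟩ := exists_of_not_cl (h.conn {v} (by simpa using hv) (singleton_nonempty v))
    refine ⟨f, hf, ?_⟩
    simp only [mem_singleton] at hf2
    (first | grind | tauto)

/-- **Positivity of the signed domination.** -/
theorem D_pos (n : ℕ) : ∀ (R W : Finset V) (B : Finset E) (K : Finset V), B.card = n →
    Hyp a b R W B K → 0 < (-1) ^ W.card * D a b R B K := by
  induction n with
  | zero =>
    intro R W B K hB h
    have hB : B = ∅ := card_eq_zero.1 hB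
    subst hB
    have hW : W = ∅ := by
      by_contra hne
      exact h.conn W subset_rfl (nonempty_iff_ne_empty.2 hne) (fun e he => by simp at he)
    subst hW
    have hK : K = ∅ := subset_empty.1 h.sub
    subst hK
    unfold D
    simp
  | succ n ih =>
    intro R W B K hB h
    have hRW : ∀ v, v ∈ R → v ∉ W := fun v hv hw => (Finset.disjoint_left.1 h.disj) hv hw
    rcases W.eq_empty_or_nonempty with hW | hW
    · subst hW
      exfalso
      obtain ⟨e, he⟩ := card_pos.1 (show 0 < B.card by omega)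
      have h1 := h.ends e he
      simp only [union_empty] at h1
      exact h.noR e he h1
    · obtain ⟨e, he, x, u, hj, hx, hu⟩ : ∃ e ∈ B, ∃ x u, Joins a b e x u ∧ x ∈ R ∧ u ∈ W := by
        obtain ⟨f, hf, hf2⟩ := exists_of_not_cl (h.conn W subset_rfl hW)
        have h1 := h.ends f hf
        simp only [mem_union] at h1
        refine ⟨f, hf, ?_⟩
        by_cases h2 : a f ∈ W
        · exact ⟨b f, a f, Or.inr ⟨rfl, rfl⟩, by (first | grind | tauto), h2⟩
        · exact ⟨a f, b f, Or.inl ⟨rfl, rfl⟩, by (first | grind | tauto), by (first | grind | tauto)⟩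
      have hcard : (B.erase e).card = n := by rw [card_erase_of_mem he]; omega
      have hD : D a b R B K = D a b R (B.erase e) K - D a b (insert u R) (B.erase e) (K.erase u) := by
        conv_lhs => rw [← insert_erase he]
        rw [D_insert_joins a b (notMem_erase _ _) hx hj, D_insert_root]
      have hends : ∀ v, (a e = v ∨ b e = v) → v = x ∨ v = u := by
        intro v hv
        rcases hj with ⟨h3, h4⟩ | ⟨h3, h4⟩ <;> rcases hv with hv | hv <;> simp_all
      -- every vertex of `W` other than `u` is touched by `B.erase e`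
      have htouch : ∀ v ∈ W, v ≠ u → ∃ f ∈ B.erase e, a f = v ∨ b f = v := by
        intro v hv hvu
        obtain ⟨f, hf, hf2⟩ := exists_of_not_cl
          (h.conn {v} (by simpa using hv) (singleton_nonempty v))
        simp only [mem_singleton] at hf2
        have hf3 : a f = v ∨ b f = v := by (first | grind | tauto)
        refine ⟨f, mem_erase.2 ⟨?_, hf⟩, hf3⟩
        rintro rfl
        rcases hends v hf3 with rfl | rfl
        · exact hRW _ hx hv
        · exact hvu rfl
      have hU1 : U a b R (B.erase e) K = W := by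
        ext v
        rw [mem_U]
        constructor
        · rintro ⟨h1, h2 | ⟨f, hf, h2⟩⟩
          · exact h.sub h2
          · have := h.ends f (mem_of_mem_erase hf)
            simp only [mem_union] at this
            rcases h2 with rfl | rfl <;> (first | grind | tauto)
        · intro hv
          refine ⟨fun h' => hRW v h' hv, ?_⟩
          by_cases hvu : v = u
          · by_contra hcon
            push Not at hcon
            obtain ⟨f, hf, hf1, hf2⟩ := exists_of_not_within (h.star1 {v} (by simpa using hv)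
              (singleton_nonempty v) (by simpa using hcon.1))
            simp only [mem_singleton] at hf1
            by_cases hfe : f = e
            · subst hfe
              apply hf2
              simp only [mem_union, mem_singleton]
              rw [hvu]
              rcases hj with ⟨h2, h3⟩ | ⟨h2, h3⟩ <;> rw [h2, h3] <;> (first | grind | tauto)
            · have := hcon.2 f (mem_erase.2 ⟨hfe, hf⟩)
              (first | grind | tauto)
          · exact Or.inr (htouch v hv hvu)
      have hU2 : U a b (insert u R) (B.erase e) (K.erase u) = W.erase u := by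
        ext v
        rw [mem_U]
        constructor
        · rintro ⟨h1, h2 | ⟨f, hf, h2⟩⟩
          · exact erase_subset_erase _ h.sub h2
          · have := h.ends f (mem_of_mem_erase hf)
            simp only [mem_union, mem_insert, mem_erase] at this h1 ⊢
            rcases h2 with rfl | rfl <;> (first | grind | tauto)
        · intro hv
          obtain ⟨hvu, hv⟩ := mem_erase.1 hv
          refine ⟨?_, Or.inr (htouch v hv hvu)⟩
          rw [mem_insert]
          rintro (h' | h')
          · exact hvu h'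
          · exact hRW v h' hv
      have h1 := D_nonneg a b n R (B.erase e) K hcard
      have h2 := D_nonneg a b n (insert u R) (B.erase e) (K.erase u) hcard
      rw [hU1] at h1
      rw [hU2] at h2
      have hc : (W.erase u).card + 1 = W.card := by
        rw [card_erase_of_mem hu]
        have := card_pos.2 hW
        omega
      have h3 : (-1 : ℤ) ^ W.card * D a b R B K = (-1) ^ W.card * D a b R (B.erase e) K +
          (-1) ^ (W.erase u).card * D a b (insert u R) (B.erase e) (K.erase u) := by
        rw [hD, ← hc, pow_succ]; ring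
      rw [h3]
      by_cases hpar : ∃ e' ∈ B.erase e, ∃ x' ∈ R, Joins a b e' x' u
      · obtain ⟨e', he', x', hx', hj'⟩ := hpar
        have := ih R W (B.erase e) K hcard (h.parallel he hj hx hu he' hj' hx')
        linarith
      · push Not at hpar
        by_cases hgood : ∀ C ⊆ W.erase u, C.Nonempty → Disjoint C K →
            ¬ Within a b (B.erase e) C (C ∪ insert u R)
        · have := ih _ _ _ _ hcard (h.contract he hj hx hu hpar hgood)
          linarith
        · push Not at hgood
          obtain ⟨C, hC, hne, hCK, hbad⟩ := hgood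
          have := ih _ _ _ _ hcard (h.delete he hj hx hu hC hne hCK hbad)
          linarith

end Pool.Agent.Lib4c49
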