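import Mathlib

set_option autoImplicit false
set_option linter.unusedSectionVars false
set_option linter.unusedVariables false

namespace Pool.Agent.Lib4c49

open Finset

variable {V E : Type*} [Fintype V] [DecidableEq V] [DecidableEq E]

/-- `S` is closed under the edges of `A`. -/
def Cl (a b : E → V) (A : Finset E) (S : Finset V) : Prop := ∀ e ∈ A, (a e ∈ S ↔ b e ∈ S)

open Classical in
/-- The set of vertices that can be reached from `R` through the edges of `A`. -/
noncomputable def reach (a b : E → V) (R : Finset V) (A : Finset E) : Finset V :=
  univ.filter (fun v => ∀ S, R ⊆ S → Cl a b A S → v ∈ S)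

variable (a b : E → V)

lemma mem_reach {R : Finset V} {A : Finset E} {v : V} :
    v ∈ reach a b R A ↔ ∀ S, R ⊆ S → Cl a b A S → v ∈ S := by
  unfold reach; simp

lemma subset_reach (R : Finset V) (A : Finset E) : R ⊆ reach a b R A := by
  intro v hv
  rw [mem_reach]
  intro S hS _
  exact hS hv

lemma cl_reach (R : Finset V) (A : Finset E) : Cl a b A (reach a b R A) := by
  intro e he
  rw [mem_reach, mem_reach]
  constructor
  · intro h S hS hc
    exact (hc e he).1 (h S hS hc)
  · intro h S hS hc
    exact (hc e he).2 (h S hS hc)

lemma reach_min {R S : Finset V} {A : Finset E} (h1 : R ⊆ S) (h2 : Cl a b A S) :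
    reach a b R A ⊆ S := by
  intro v hv
  rw [mem_reach] at hv
  exact hv S h1 h2

lemma Cl.mono {A A' : Finset E} {S : Finset V} (h : Cl a b A' S) (hA : A ⊆ A') : Cl a b A S :=
  fun e he => h e (hA he)

lemma reach_mono {R R' : Finset V} {A A' : Finset E} (hR : R ⊆ R') (hA : A ⊆ A') :
    reach a b R A ⊆ reach a b R' A' :=
  reach_min a b (hR.trans (subset_reach a b _ _)) ((cl_reach a b R' A').mono a b hA)

lemma reach_eq {R S : Finset V} {A : Finset E} (h1 : R ⊆ S) (h2 : Cl a b A S)
    (h3 : S ⊆ reach a b R A) : reach a b R A = S :=
  (reach_min a b h1 h2).antisymm h3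

lemma reach_empty (R : Finset V) : reach a b R ∅ = R :=
  (reach_min a b subset_rfl (fun e he => by simp at he)).antisymm (subset_reach a b _ _)

/-- `e` joins `x` and `u`. -/
def Joins (e : E) (x u : V) : Prop := (a e = x ∧ b e = u) ∨ (a e = u ∧ b e = x)

lemma reach_insert_joins {R : Finset V} {A : Finset E} {e : E} {x u : V} (hx : x ∈ R)
    (hj : Joins a b e x u) : reach a b R (insert e A) = reach a b (insert u R) A := by
  apply reach_eq
  · exact (subset_insert _ _).trans (subset_reach a b _ _)
  · intro f hf
    rcases mem_insert.1 hf with rfl | hf
    · have h1 : x ∈ reach a b (insert u R) A := subset_reach a b _ _ (mem_insert_of_mem hx)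
      have h2 : u ∈ reach a b (insert u R) A := subset_reach a b _ _ (mem_insert_self _ _)
      rcases hj with ⟨rfl, rfl⟩ | ⟨rfl, rfl⟩ <;> simp [h1, h2]
    · exact cl_reach a b _ _ f hf
  · apply reach_min
    · intro v hv
      rcases mem_insert.1 hv with rfl | hv
      · have h1 : x ∈ reach a b R (insert e A) := subset_reach a b _ _ hx
        have h2 := cl_reach a b R (insert e A) e (mem_insert_self _ _)
        rcases hj with ⟨rfl, rfl⟩ | ⟨rfl, rfl⟩
        · exact h2.1 h1
        · exact h2.2 h1
      · exact subset_reach a b _ _ hv
    · exact (cl_reach a b R (insert e A)).mono a b (subset_insert _ _)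

/-- An edge with both ends in the closed set or both ends outside does not matter. -/
lemma reach_insert_of_cl {R : Finset V} {A : Finset E} {e : E}
    (h : a e ∈ reach a b R A ↔ b e ∈ reach a b R A) :
    reach a b R (insert e A) = reach a b R A := by
  apply reach_eq
  · exact subset_reach a b _ _
  · intro f hf
    rcases mem_insert.1 hf with rfl | hf
    · exact h
    · exact cl_reach a b _ _ f hf
  · exact reach_mono a b subset_rfl (subset_insert _ _)

lemma reach_insert_of_mem {R : Finset V} {A : Finset E} {e : E} (ha : a e ∈ R) (hb : b e ∈ R) :
    reach a b R (insert e A) = reach a b R A :=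
  reach_insert_of_cl a b (by
    have h1 := subset_reach a b R A ha
    have h2 := subset_reach a b R A hb
    simp [h1, h2])

lemma card_reach_le (R : Finset V) (A : Finset E) : (reach a b R A \ R).card ≤ A.card := by
  induction A using Finset.induction_on generalizing R with
  | empty => rw [reach_empty]; simp
  | insert e A he ih =>
    rw [card_insert_of_notMem he]
    by_cases h : a e ∈ reach a b R A ↔ b e ∈ reach a b R A
    · rw [reach_insert_of_cl a b h]
      exact (ih R).trans (Nat.le_succ _)
    · -- exactly one end is reached
      have key : ∀ x u, Joins a b e x u → x ∈ reach a b R A → u ∉ reach a b R A →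
          (reach a b R (insert e A) \ R).card ≤ A.card + 1 := by
        intro x u hj hx hu
        have h1 : reach a b R (insert e A) ⊆ reach a b (insert u R) A := by
          rcases hj with ⟨rfl, rfl⟩ | ⟨rfl, rfl⟩
          · apply reach_min
            · exact (subset_insert _ _).trans (subset_reach a b _ _)
            · intro f hf
              rcases mem_insert.1 hf with rfl | hf
              · have h1 := reach_mono a b (subset_insert (b f) R) (subset_refl A) hx
                have h2 : b f ∈ reach a b (insert (b f) R) A :=
                  subset_reach a b _ _ (mem_insert_self _ _)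
                simp [h1, h2]
              · exact cl_reach a b _ _ f hf
          · apply reach_min
            · exact (subset_insert _ _).trans (subset_reach a b _ _)
            · intro f hf
              rcases mem_insert.1 hf with rfl | hf
              · have h1 := reach_mono a b (subset_insert (a f) R) (subset_refl A) hx
                have h2 : a f ∈ reach a b (insert (a f) R) A :=
                  subset_reach a b _ _ (mem_insert_self _ _)
                simp [h1, h2]
              · exact cl_reach a b _ _ f hf
        have h2 : reach a b R (insert e A) \ R ⊆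
            insert u (reach a b (insert u R) A \ insert u R) := by
          intro v hv
          rw [mem_sdiff] at hv
          rw [mem_insert, mem_sdiff, mem_insert]
          by_cases hvu : v = u
          · exact Or.inl hvu
          · exact Or.inr ⟨h1 hv.1, fun h => h.elim hvu hv.2⟩
        calc _ ≤ _ := card_le_card h2
          _ ≤ _ := card_insert_le _ _
          _ ≤ _ := Nat.add_le_add_right (ih _) 1
      by_cases ha : a e ∈ reach a b R A
      · have hb : b e ∉ reach a b R A := fun hb => h ⟨fun _ => hb, fun _ => ha⟩
        exact key _ _ (Or.inl ⟨rfl, rfl⟩) ha hb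
      · have hb : b e ∈ reach a b R A := by
          by_contra hb
          exact h ⟨fun h' => absurd h' ha, fun h' => absurd h' hb⟩
        exact key _ _ (Or.inr ⟨rfl, rfl⟩) hb ha

/-! ### Signed domination -/

/-- The signed count of the sets of edges which join all of `K` to `R`. -/
noncomputable def D (R : Finset V) (B : Finset E) (K : Finset V) : ℤ :=
  ∑ A ∈ B.powerset, if K ⊆ reach a b R A then (-1) ^ A.card else 0

lemma D_insert {R K : Finset V} {B : Finset E} {e : E} (he : e ∉ B) :
    D a b R (insert e B) K = D a b R B K -
      ∑ A ∈ B.powerset, if K ⊆ reach a b R (insert e A) then (-1) ^ A.card else 0 := by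
  unfold D
  rw [sum_powerset_insert he, sub_eq_add_neg, ← sum_neg_distrib]
  congr 1
  refine sum_congr rfl (fun A hA => ?_)
  have : e ∉ A := fun h => he (mem_powerset.1 hA h)
  rw [card_insert_of_notMem this]
  split_ifs <;> simp [pow_succ]

lemma D_insert_joins {R K : Finset V} {B : Finset E} {e : E} {x u : V} (he : e ∉ B) (hx : x ∈ R)
    (hj : Joins a b e x u) :
    D a b R (insert e B) K = D a b R B K - D a b (insert u R) B K := by
  rw [D_insert a b he]
  unfold D
  congr 1
  refine sum_congr rfl (fun A _ => ?_)
  rw [reach_insert_joins a b hx hj]

/-- If the edge `e` never matters then the signed count vanishes. -/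
lemma D_insert_zero {R K : Finset V} {B : Finset E} {e : E} (he : e ∉ B)
    (h : ∀ A ⊆ B, reach a b R (insert e A) = reach a b R A) :
    D a b R (insert e B) K = 0 := by
  rw [D_insert a b he]
  unfold D
  rw [sub_eq_zero]
  refine sum_congr rfl (fun A hA => ?_)
  rw [h A (mem_powerset.1 hA)]

/-- If `K` contains the vertex `u` of `R`, it can be dropped. -/
lemma D_insert_root {R K : Finset V} {B : Finset E} {u : V} :
    D a b (insert u R) B K = D a b (insert u R) B (K.erase u) := by
  unfold D
  refine sum_congr rfl (fun A _ => ?_)
  have h1 : u ∈ reach a b (insert u R) A := subset_reach a b _ _ (mem_insert_self _ _)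
  have : K ⊆ reach a b (insert u R) A ↔ K.erase u ⊆ reach a b (insert u R) A := by
    constructor
    · intro h; exact (erase_subset _ _).trans h
    · intro h v hv
      by_cases hvu : v = u
      · rw [hvu]; exact h1
      · exact h (mem_erase.2 ⟨hvu, hv⟩)
  simp only [this]

open Classical in
/-- The non-root vertices that are in `K` or on an edge of `B`. -/
noncomputable def U (R : Finset V) (B : Finset E) (K : Finset V) : Finset V :=
  univ.filter (fun v => v ∉ R ∧ (v ∈ K ∨ ∃ e ∈ B, a e = v ∨ b e = v))

lemma mem_U {R : Finset V} {B : Finset E} {K : Finset V} {v : V} :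
    v ∈ U a b R B K ↔ v ∉ R ∧ (v ∈ K ∨ ∃ e ∈ B, a e = v ∨ b e = v) := by
  unfold U; simp

/-- If `B` is nonempty and no edge leaves `R`, the signed count is zero. -/
lemma D_eq_zero_of_closed {R K : Finset V} {B : Finset E} (hB : B.Nonempty) (h : Cl a b B R) :
    D a b R B K = 0 := by
  obtain ⟨e, he⟩ := hB
  rw [← insert_erase he]
  apply D_insert_zero a b (notMem_erase _ _)
  intro A hA
  have h1 : reach a b R A = R :=
    reach_eq a b subset_rfl (h.mono a b (hA.trans (erase_subset _ _))) (subset_reach a b _ _)
  apply reach_insert_of_cl
  rw [h1]
  exact h e he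

/-- The sign of the signed count. -/
theorem D_nonneg (n : ℕ) : ∀ (R : Finset V) (B : Finset E) (K : Finset V), B.card = n →
    0 ≤ (-1) ^ (U a b R B K).card * D a b R B K := by
  induction n with
  | zero =>
    intro R B K hB
    have hB : B = ∅ := card_eq_zero.1 hB
    subst hB
    have hD : D a b R ∅ K = if K ⊆ R then 1 else 0 := by
      unfold D
      rw [powerset_empty, sum_singleton, reach_empty]
      simp
    rw [hD]
    split_ifs with hK
    · have : U a b R ∅ K = ∅ := by
        ext v
        rw [mem_U]
        simp only [notMem_empty, false_and, exists_false, or_false, iff_false, not_and]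
        intro h1 h2
        exact h1 (hK h2)
      rw [this]
      simp
    · simp
  | succ n ih =>
    intro R B K hB
    by_cases hcl : Cl a b B R
    · rw [D_eq_zero_of_closed a b (card_pos.1 (by omega)) hcl]
      simp
    · -- an edge leaving `R`
      have : ∃ e ∈ B, ∃ x u, Joins a b e x u ∧ x ∈ R ∧ u ∉ R := by
        unfold Cl at hcl
        push Not at hcl
        obtain ⟨e, he, h⟩ := hcl
        refine ⟨e, he, ?_⟩
        rcases h with ⟨h1, h2⟩ | ⟨h1, h2⟩
        · exact ⟨a e, b e, Or.inl ⟨rfl, rfl⟩, h1, h2⟩
        · exact ⟨b e, a e, Or.inr ⟨rfl, rfl⟩, h2, h1⟩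
      obtain ⟨e, he, x, u, hj, hx, hu⟩ := this
      have hcard : (B.erase e).card = n := by rw [card_erase_of_mem he]; omega
      have hD : D a b R B K = D a b R (B.erase e) K - D a b (insert u R) (B.erase e) K := by
        conv_lhs => rw [← insert_erase he]
        exact D_insert_joins a b (notMem_erase _ _) hx hj
      have h1 := ih R (B.erase e) K hcard
      have h2 := ih (insert u R) (B.erase e) K hcard
      have huU : u ∈ U a b R B K := by
        rw [mem_U]
        refine ⟨hu, Or.inr ⟨e, he, ?_⟩⟩
        rcases hj with ⟨_, h⟩ | ⟨h, _⟩ <;> simp [h]
      have hends : ∀ v, (a e = v ∨ b e = v) → v = x ∨ v = u := by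
        intro v hv
        rcases hj with ⟨h3, h4⟩ | ⟨h3, h4⟩ <;> rcases hv with hv | hv <;> simp_all
      have hU2 : U a b (insert u R) (B.erase e) K = (U a b R B K).erase u := by
        ext v
        rw [mem_erase, mem_U, mem_U, mem_insert]
        constructor
        · rintro ⟨h3, h4⟩
          push Not at h3
          refine ⟨h3.1, h3.2, ?_⟩
          rcases h4 with h4 | ⟨f, hf, h4⟩
          · exact Or.inl h4
          · exact Or.inr ⟨f, mem_of_mem_erase hf, h4⟩
        · rintro ⟨h3, h4, h5⟩
          refine ⟨by push Not; exact ⟨h3, h4⟩, ?_⟩
          rcases h5 with h5 | ⟨f, hf, h5⟩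
          · exact Or.inl h5
          · refine Or.inr ⟨f, mem_erase.2 ⟨?_, hf⟩, h5⟩
            rintro rfl
            rcases hends v h5 with rfl | rfl
            · exact h4 hx
            · exact h3 rfl
      have hc2 : (U a b (insert u R) (B.erase e) K).card + 1 = (U a b R B K).card := by
        rw [hU2, card_erase_of_mem huU]
        have := card_pos.2 ⟨u, huU⟩
        omega
      by_cases hux : u ∈ U a b R (B.erase e) K
      · have hU1 : U a b R (B.erase e) K = U a b R B K := by
          ext v
          by_cases hvu : v = u
          · subst hvu; simp [hux, huU]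
          rw [mem_U, mem_U]
          constructor
          · rintro ⟨h3, h4⟩
            refine ⟨h3, ?_⟩
            rcases h4 with h4 | ⟨f, hf, h4⟩
            · exact Or.inl h4
            · exact Or.inr ⟨f, mem_of_mem_erase hf, h4⟩
          · rintro ⟨h4, h5⟩
            refine ⟨h4, ?_⟩
            rcases h5 with h5 | ⟨f, hf, h5⟩
            · exact Or.inl h5
            · refine Or.inr ⟨f, mem_erase.2 ⟨?_, hf⟩, h5⟩
              rintro rfl
              rcases hends v h5 with rfl | rfl
              · exact h4 hx
              · exact hvu rfl
        rw [hU1] at h1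
        rw [hD, mul_sub, sub_eq_add_neg, ← mul_neg]
        have h3 : (-1 : ℤ) ^ (U a b R B K).card * -D a b (insert u R) (B.erase e) K
            = (-1) ^ (U a b (insert u R) (B.erase e) K).card * D a b (insert u R) (B.erase e) K := by
          rw [← hc2, pow_succ]; ring
        rw [h3]
        exact add_nonneg h1 h2
      · -- `u` is isolated in `B.erase e` and not in `K`
        have h3 : D a b R (B.erase e) K = D a b (insert u R) (B.erase e) K := by
          rw [mem_U] at hux
          push Not at hux
          have hux := hux hu
          unfold D
          refine sum_congr rfl (fun A hA => ?_)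
          have h4 : reach a b (insert u R) A = insert u (reach a b R A) := by
            apply reach_eq
            · exact insert_subset_insert _ (subset_reach a b _ _)
            · intro f hf
              have hf' := mem_powerset.1 hA hf
              have h5 := hux.2 f hf'
              have h6 := cl_reach a b R A f hf
              rw [mem_insert, mem_insert]
              constructor
              · rintro (h | h)
                · exact absurd h h5.1
                · exact Or.inr (h6.1 h)
              · rintro (h | h)
                · exact absurd h h5.2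
                · exact Or.inr (h6.2 h)
            · rw [insert_subset_iff]
              exact ⟨subset_reach a b _ _ (mem_insert_self _ _),
                reach_mono a b (subset_insert _ _) subset_rfl⟩
          rw [h4]
          have h5 : K ⊆ insert u (reach a b R A) ↔ K ⊆ reach a b R A := by
            constructor
            · intro h v hv
              rcases mem_insert.1 (h hv) with rfl | h'
              · exact absurd hv hux.1
              · exact h'
            · intro h; exact h.trans (subset_insert _ _)
          simp only [h5]
        rw [hD, h3, sub_self, mul_zero]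

end Pool.Agent.Lib4c49
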