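import Pool.Agent.Lib_MP_4c49f5_co.Reach
import Pool.Agent.Lib_MP_4c49f5_co.Defs

set_option autoImplicit false
set_option linter.unusedSectionVars false
set_option linter.unusedVariables false

namespace Pool.Agent.Lib4c49

open Finset

variable {V E : Type*} [Fintype V] [DecidableEq V] [DecidableEq E] {a b : E → V}
  {ends : E → Sym2 V} {r : V}

/-- The edge set of the induced simple graph. -/
lemma card_edges (hends : ∀ e, ends e = s(a e, b e)) {F : Finset E} {U : Set V}
    (hU : ∀ e ∈ F, ∀ x ∈ ends e, x ∈ U) :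
    Nat.card ((SimpleGraph.fromEdgeSet (ends '' (F : Set E))).induce U).edgeSet =
      (((F.filter (fun e => ¬ (ends e).IsDiag)).image ends).card) := by
  classical
  set G := (SimpleGraph.fromEdgeSet (ends '' (F : Set E))).induce U with hG
  have hinj : Function.Injective (Sym2.map (Subtype.val : U → V)) :=
    Sym2.map.injective Subtype.val_injective
  have himg : (Sym2.map (Subtype.val : U → V)) '' G.edgeSet =
      (((F.filter (fun e => ¬ (ends e).IsDiag)).image ends : Finset (Sym2 V)) : Set (Sym2 V)) := by
    ext z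
    constructor
    · rintro ⟨w, hw, rfl⟩
      induction w using Sym2.ind with
      | _ x y =>
        rw [SimpleGraph.mem_edgeSet, hG, SimpleGraph.induce_adj, SimpleGraph.fromEdgeSet_adj] at hw
        obtain ⟨⟨e, he, he2⟩, hne⟩ := hw
        rw [Sym2.map_mk, Finset.mem_coe, mem_image]
        refine ⟨e, ?_, he2⟩
        rw [mem_filter]
        refine ⟨he, ?_⟩
        rw [he2]
        simpa using hne
    · intro hz
      rw [Finset.mem_coe, mem_image] at hz
      obtain ⟨e, he, rfl⟩ := hz
      rw [mem_filter] at he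
      obtain ⟨he, hd⟩ := he
      have ha : a e ∈ U := hU e he _ (by rw [hends]; simp)
      have hb : b e ∈ U := hU e he _ (by rw [hends]; simp)
      refine ⟨s(⟨a e, ha⟩, ⟨b e, hb⟩), ?_, ?_⟩
      · rw [SimpleGraph.mem_edgeSet, hG, SimpleGraph.induce_adj, SimpleGraph.fromEdgeSet_adj]
        refine ⟨⟨e, he, hends e⟩, ?_⟩
        rw [hends] at hd
        simpa using hd
      · rw [Sym2.map_mk]; exact (hends e).symm
  rw [← Set.ncard_coe_finset, ← himg, Set.ncard_image_of_injective _ hinj]
  rfl

/-- A combinatorial form of being a tree. -/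
def Tree' (a b : E → V) (r : V) (U : Finset V) (F : Finset E) : Prop :=
  r ∈ U ∧ (∀ e ∈ F, a e ∈ U ∧ b e ∈ U) ∧ U ⊆ reach a b {r} F ∧ U.card = F.card + 1

lemma tree_of_feasible (hends : ∀ e, ends e = s(a e, b e)) {F : Finset E}
    (h : Feasible ends r F) : ∃ U, Tree' a b r U F := by
  classical
  obtain ⟨U, hrU, hU, hd, hinj, htree⟩ := h
  refine ⟨U.toFinset, by simpa using hrU, ?_, ?_, ?_⟩
  · intro e he
    have h1 := hU e he (a e) (by rw [hends]; simp)
    have h2 := hU e he (b e) (by rw [hends]; simp)
    simp [h1, h2]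
  · intro v hv
    rw [Set.mem_toFinset] at hv
    rw [mem_reach]
    intro S hS hcl
    -- walk from `r` to `v`
    have hconn := htree.connected.preconnected ⟨r, hrU⟩ ⟨v, hv⟩
    have key : ∀ (x y : U) (p : ((SimpleGraph.fromEdgeSet (ends '' (F : Set E))).induce U).Walk x y),
        (x : V) ∈ S → (y : V) ∈ S := by
      intro x y p
      induction p with
      | nil => exact id
      | cons hadj p ih =>
        intro hx
        apply ih
        rw [SimpleGraph.induce_adj, SimpleGraph.fromEdgeSet_adj] at hadj
        obtain ⟨⟨e, he, he2⟩, hne⟩ := hadj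
        have h3 := hcl e he
        rw [hends, Sym2.eq_iff] at he2
        rcases he2 with ⟨h4, h5⟩ | ⟨h4, h5⟩
        · rw [h4, h5] at h3; exact h3.1 hx
        · rw [h4, h5] at h3; exact h3.2 hx
    obtain ⟨p⟩ := hconn
    exact key _ _ p (hS (mem_singleton_self r))
  · have h1 := (SimpleGraph.isTree_iff_connected_and_card.1 htree).2
    rw [card_edges hends hU] at h1
    have h2 : F.filter (fun e => ¬ (ends e).IsDiag) = F := by
      rw [filter_eq_self]; exact hd
    rw [h2, card_image_of_injOn hinj] at h1
    rw [h1, Set.toFinset_card, Nat.card_eq_fintype_card]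

lemma feasible_of_tree (hends : ∀ e, ends e = s(a e, b e)) {F : Finset E} {U : Finset V}
    (h : Tree' a b r U F) : Feasible ends r F := by
  classical
  obtain ⟨hrU, hU, hreach, hcard⟩ := h
  have hU' : ∀ e ∈ F, ∀ x ∈ ends e, x ∈ (U : Set V) := by
    intro e he x hx
    rw [hends, Sym2.mem_iff] at hx
    rcases hx with rfl | rfl
    · exact (hU e he).1
    · exact (hU e he).2
  set G := (SimpleGraph.fromEdgeSet (ends '' (F : Set E))).induce (U : Set V) with hG
  have hconn : G.Connected := by
    have hr : ∀ x : (U : Set V), G.Reachable ⟨r, hrU⟩ x := by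
      have hsub : reach a b {r} F ⊆
          univ.filter (fun v => ∃ h : v ∈ (U : Set V), G.Reachable ⟨r, hrU⟩ ⟨v, h⟩) := by
        apply reach_min
        · intro v hv
          rw [mem_singleton] at hv
          subst hv
          rw [mem_filter]
          exact ⟨mem_univ _, hrU, SimpleGraph.Reachable.refl _⟩
        · intro e he
          have h1 := hU e he
          have h2 : ∀ (ha : a e ∈ (U : Set V)) (hb : b e ∈ (U : Set V)), a e ≠ b e →
              G.Adj ⟨a e, ha⟩ ⟨b e, hb⟩ := by
            intro ha hb hne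
            rw [hG, SimpleGraph.induce_adj, SimpleGraph.fromEdgeSet_adj]
            exact ⟨⟨e, he, hends e⟩, hne⟩
          by_cases hab : a e = b e
          · rw [hab]
          · have h3 := h2 h1.1 h1.2 hab
            simp only [mem_filter, mem_univ, true_and]
            constructor
            · rintro ⟨h4, h5⟩
              exact ⟨h1.2, h5.trans h3.reachable⟩
            · rintro ⟨h4, h5⟩
              exact ⟨h1.1, h5.trans h3.symm.reachable⟩
      rintro ⟨x, hx⟩
      have := hsub (hreach hx)
      rw [mem_filter] at this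
      exact this.2.2
    haveI : Nonempty (U : Set V) := ⟨⟨r, hrU⟩⟩
    exact ⟨fun x y => (hr x).symm.trans (hr y)⟩
  have h1 := hconn.card_vert_le_card_edgeSet_add_one
  have hcU : Nat.card (U : Set V) = U.card := by simp
  have hcE := card_edges hends hU'
  rw [← hG] at hcE
  rw [hcE, hcU, hcard] at h1
  have h2 : ((F.filter (fun e => ¬ (ends e).IsDiag)).image ends).card ≤
      (F.filter (fun e => ¬ (ends e).IsDiag)).card := card_image_le
  have h3 : (F.filter (fun e => ¬ (ends e).IsDiag)).card ≤ F.card := card_filter_le _ _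
  have h4 : F.filter (fun e => ¬ (ends e).IsDiag) = F :=
    eq_of_subset_of_card_le (filter_subset _ _) (by omega)
  have hinj : Set.InjOn ends (F : Set E) := by
    rw [← card_image_iff]
    rw [h4] at h1 h2
    omega
  refine ⟨(U : Set V), hrU, hU', filter_eq_self.1 h4, hinj, ?_⟩
  rw [SimpleGraph.isTree_iff_connected_and_card]
  refine ⟨hconn, ?_⟩
  rw [← hG, hcE, hcU, hcard, h4, card_image_of_injOn hinj]

/-- Growing trees. -/
lemma exists_tree (A : Finset E) (n : ℕ) (hn : n ≤ (reach a b {r} A \ {r}).card) :
    ∃ F ⊆ A, F.card = n ∧ ∃ U, Tree' a b r U F := by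
  induction n with
  | zero =>
    refine ⟨∅, empty_subset _, rfl, {r}, mem_singleton_self _, by simp, ?_, by simp⟩
    rw [reach_empty]
  | succ n ih =>
    obtain ⟨F, hFA, hFc, U, hrU, hU, hreach, hcard⟩ := ih (by omega)
    have hrr : r ∈ reach a b {r} A := subset_reach a b _ _ (mem_singleton_self r)
    have hc1 : (reach a b {r} A \ {r}).card + 1 = (reach a b {r} A).card := by
      rw [sdiff_singleton_eq_erase, card_erase_of_mem hrr]
      have := card_pos.2 ⟨r, hrr⟩
      omega
    have hncl : ¬ Cl a b A U := by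
      intro hcl
      have := card_le_card (reach_min a b (singleton_subset_iff.2 hrU) hcl)
      omega
    have : ∃ e ∈ A, ∃ x y, Joins a b e x y ∧ x ∈ U ∧ y ∉ U := by
      unfold Cl at hncl
      push Not at hncl
      obtain ⟨e, he, h⟩ := hncl
      refine ⟨e, he, ?_⟩
      rcases h with ⟨h1, h2⟩ | ⟨h1, h2⟩
      · exact ⟨a e, b e, Or.inl ⟨rfl, rfl⟩, h1, h2⟩
      · exact ⟨b e, a e, Or.inr ⟨rfl, rfl⟩, h2, h1⟩
    obtain ⟨e, he, x, y, hj, hx, hy⟩ := this
    have heF : e ∉ F := by
      intro heF
      have := hU e heF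
      rcases hj with ⟨h1, h2⟩ | ⟨h1, h2⟩
      · rw [h1, h2] at this; exact hy this.2
      · rw [h1, h2] at this; exact hy this.1
    refine ⟨insert e F, insert_subset he hFA, by rw [card_insert_of_notMem heF, hFc],
      insert y U, mem_insert_of_mem hrU, ?_, ?_, ?_⟩
    · intro f hf
      rcases mem_insert.1 hf with rfl | hf
      · rcases hj with ⟨h1, h2⟩ | ⟨h1, h2⟩
        · rw [h1, h2]; exact ⟨mem_insert_of_mem hx, mem_insert_self _ _⟩
        · rw [h1, h2]; exact ⟨mem_insert_self _ _, mem_insert_of_mem hx⟩
      · exact ⟨mem_insert_of_mem (hU f hf).1, mem_insert_of_mem (hU f hf).2⟩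
    · have h1 : U ⊆ reach a b {r} (insert e F) :=
        hreach.trans (reach_mono a b subset_rfl (subset_insert _ _))
      rw [insert_subset_iff]
      refine ⟨?_, h1⟩
      have h2 := cl_reach a b {r} (insert e F) e (mem_insert_self _ _)
      have h3 := h1 hx
      rcases hj with ⟨h4, h5⟩ | ⟨h4, h5⟩
      · rw [h4, h5] at h2; exact h2.1 h3
      · rw [h4, h5] at h2; exact h2.2 h3
    · rw [card_insert_of_notMem hy, card_insert_of_notMem heF, hcard]

lemma rk_eq (hends : ∀ e, ends e = s(a e, b e)) (A : Finset E) :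
    rk ends r A = (reach a b {r} A \ {r}).card := by
  classical
  apply le_antisymm
  · unfold rk
    apply Finset.sup_le
    intro F hF
    rw [mem_filter, mem_powerset] at hF
    obtain ⟨U, hrU, hU, hreach, hcard⟩ := tree_of_feasible hends hF.2
    have h1 : U ⊆ reach a b {r} A := hreach.trans (reach_mono a b subset_rfl hF.1)
    have h2 : (U \ {r}).card + 1 = U.card := by
      rw [sdiff_singleton_eq_erase, card_erase_of_mem hrU]
      have := card_pos.2 ⟨r, hrU⟩
      omega
    have h3 : (U \ {r}).card ≤ (reach a b {r} A \ {r}).card :=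
      card_le_card (sdiff_subset_sdiff h1 subset_rfl)
    omega
  · obtain ⟨F, hFA, hFc, U, hT⟩ := exists_tree (a := a) (b := b) (r := r) A _ le_rfl
    rw [← hFc]
    unfold rk
    apply Finset.le_sup (f := Finset.card)
    rw [mem_filter, mem_powerset]
    exact ⟨hFA, feasible_of_tree hends hT⟩

end Pool.Agent.Lib4c49
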